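import Pool.Agent.Lib.MP_e2257e_gt.A.Stmts

/-!
# MP_e2257e_gt : the iteration, ccc
-/

set_option autoImplicit false

namespace Pool.Agent.FS

open Classical

variable {J X : Type} [LinearOrder J] [WellFoundedLT J] {hl : J → Prop}

/-- names of the common extension of two conditions at the level `δ` -/
private theorem cccs_names (h2 : S_max) {γ : J} (ih : ∀ δ < γ, IH (X := X) hl δ) {E : Set X}
    {p q : RC J X} (hp : p ∈ HV hl E γ) (hq : q ∈ HV hl E γ) (δ : J) :
    ∃ (ν : List ℕ → ℕ → RC J X) (β : List ℕ → ℕ → ℕ),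
      (δ ∈ p.dom ∨ δ ∈ q.dom → ∀ u i, HE E (ν u i)) ∧
      (δ ∈ p.dom ∨ δ ∈ q.dom → δ < γ → ∀ u, (∀ i, V hl δ (ν u i)) ∧
        ∀ r, V hl δ r → ∃ r', V hl δ r' ∧ LE hl δ r' r ∧ ∃ i, LE hl δ r' (ν u i)) ∧
      (δ ∈ p.dom → δ < γ → ∀ u i, ∃ i', p.bd δ u i' ≤ β u i ∧ LE hl δ (ν u i) (p.nm δ u i')) ∧
      (δ ∈ q.dom → δ < γ → ∀ u i, ∃ i', q.bd δ u i' ≤ β u i ∧
        LE hl δ (ν u i) (q.nm δ u i')) := by
  by_cases h : (δ ∈ p.dom ∧ δ ∈ q.dom) ∧ δ < γ
  · obtain ⟨⟨hp1, hq1⟩, hδ⟩ := h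
    obtain ⟨i1, i2, i3⟩ := ih δ hδ E
    have i4 : Hit hl E δ none := by
      refine i3 none ?_
      intro x α hx
      exact absurd hx (by simp)
    obtain ⟨ν, β, j1, j2, j3⟩ := h2 J X hl E δ i1 i2 i4 {p, q} (Set.toFinite _) (by
      intro a ha
      rcases ha with rfl | ha
      · exact ⟨hp.1.tot hp1 hδ, fun u i => (HE_iff.1 hp.2).2 δ hp1 u i⟩
      · rw [Set.mem_singleton_iff] at ha
        subst ha
        exact ⟨hq.1.tot hq1 hδ, fun u i => (HE_iff.1 hq.2).2 δ hq1 u i⟩)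
    exact ⟨ν, β, fun _ => j1, fun _ _ => j2, fun _ _ u i => j3 u i p (Or.inl rfl),
      fun _ _ u i => j3 u i q (Or.inr rfl)⟩
  · by_cases hp1 : δ ∈ p.dom
    · refine ⟨p.nm δ, p.bd δ, fun _ u i => (HE_iff.1 hp.2).2 δ hp1 u i,
        fun _ hδ => hp.1.tot hp1 hδ, fun _ hδ u i => ⟨i, le_rfl, LE_refl (hp.1.nm hp1 hδ u i)⟩,
        fun hq1 hδ => absurd ⟨⟨hp1, hq1⟩, hδ⟩ h⟩
    · by_cases hq1 : δ ∈ q.dom
      · exact ⟨q.nm δ, q.bd δ, fun _ u i => (HE_iff.1 hq.2).2 δ hq1 u i,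
          fun _ hδ => hq.1.tot hq1 hδ, fun h' => absurd h' hp1,
          fun _ hδ u i => ⟨i, le_rfl, LE_refl (hq.1.nm hq1 hδ u i)⟩⟩
      · exact ⟨fun _ _ => .one, fun _ _ => 0, fun h' => absurd h' (by tauto),
          fun h' => absurd h' (by tauto), fun h' => absurd h' hp1, fun h' => absurd h' hq1⟩

/-- two conditions with the same height, the same stems and the same tower parts at the common
coordinates are compatible -/
private theorem cccs_amal (h2 : S_max) {γ : J} (ih : ∀ δ < γ, IH (X := X) hl δ) {E : Set X}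
    {p q : RC J X} (hp : p ∈ HV hl E γ) (hq : q ∈ HV hl E γ) (hht : p.ht = q.ht)
    (hst : ∀ δ < γ, δ ∈ p.dom → δ ∈ q.dom → p.stem δ = q.stem δ)
    (hel : ∀ x, ∀ j < γ, (x, j) ∈ p.tw → (x, j) ∈ q.tw → p.el x j = q.el x j) :
    ∃ r ∈ HV hl E γ, LE hl γ r p ∧ LE hl γ r q := by
  choose ν β k1 k2 k3 k4 using cccs_names h2 ih hp hq
  have e1 : ∀ x j, (x, j) ∈ p.tw → (if (x, j) ∈ p.tw then p.el x j else q.el x j) = p.el x j :=
    fun x j hx => if_pos hx
  have e2 : ∀ x j, j < γ → (x, j) ∈ q.tw →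
      (if (x, j) ∈ p.tw then p.el x j else q.el x j) = q.el x j := by
    intro x j hj hx
    split_ifs with hx'
    · exact hel x j hj hx' hx
    · rfl
  have e3 : ∀ δ, δ < γ → δ ∈ q.dom →
      (if δ ∈ p.dom then p.stem δ else q.stem δ) = q.stem δ := by
    intro δ hδ hx
    split_ifs with hx'
    · exact hst δ hδ hx' hx
    · rfl
  refine ⟨.mk (p.dom ∪ q.dom) (fun δ => if δ ∈ p.dom then p.stem δ else q.stem δ) ν β
    (p.tw ∪ q.tw) p.ht (fun x j => if (x, j) ∈ p.tw then p.el x j else q.el x j),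
    ⟨?_, ?_⟩, ?_, ?_⟩
  · rw [V_iff]
    refine ⟨fun x j hx hj => ?_, fun δ hδ hj => ?_⟩
    · rcases Finset.mem_union.1 hx with hx | hx
      · refine ⟨hp.1.tl hx hj, fun k hk => ?_⟩
        replace hk : k ∈ (if (x, j) ∈ p.tw then p.el x j else q.el x j) := hk
        rw [e1 x j hx] at hk
        exact hp.1.el hx hj hk
      · refine ⟨hq.1.tl hx hj, fun k hk => ?_⟩
        replace hk : k ∈ (if (x, j) ∈ p.tw then p.el x j else q.el x j) := hk
        rw [e2 x j hj hx] at hk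
        change k < p.ht
        rw [hht]
        exact hq.1.el hx hj hk
    · have hδ' : δ ∈ p.dom ∨ δ ∈ q.dom := Finset.mem_union.1 hδ
      refine ⟨?_, ?_⟩
      · rcases hδ' with h | h
        · exact hp.1.hlv h hj
        · exact hq.1.hlv h hj
      · exact k2 δ hδ' hj
  · rw [HE_iff]
    refine ⟨fun x j hx => ?_, fun δ hδ u i => ?_⟩
    · rcases Finset.mem_union.1 hx with hx | hx
      · exact (HE_iff.1 hp.2).1 x j hx
      · exact (HE_iff.1 hq.2).1 x j hx
    · exact k1 δ (Finset.mem_union.1 hδ) u i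
  · rw [LE_iff]
    refine ⟨⟨le_rfl, fun x j hx hj => ?_⟩, fun δ hδ hj => ?_⟩
    · refine ⟨Finset.mem_union_left _ hx, fun k _ => ?_, fun j' _ _ k hk hk' => ?_⟩
      · change k ∈ (if (x, j) ∈ p.tw then p.el x j else q.el x j) ↔ _
        rw [e1 x j hx]
      · replace hk : k ∈ (if (x, j) ∈ p.tw then p.el x j else q.el x j) := hk
        rw [e1 x j hx] at hk
        exact absurd (hp.1.el hx hj hk) (not_lt.2 hk')
    · have hs : (if δ ∈ p.dom then p.stem δ else q.stem δ) = p.stem δ := if_pos hδ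
      refine ⟨Finset.mem_union_left _ hδ, ?_, fun n hn1 hn2 => ?_, ?_⟩
      · change _ <+: (if δ ∈ p.dom then p.stem δ else q.stem δ)
        rw [hs]
      · replace hn2 : n < (if δ ∈ p.dom then p.stem δ else q.stem δ).length := hn2
        rw [hs] at hn2
        exact absurd hn2 (not_lt.2 hn1)
      · rintro u m s _ _ _ ⟨i, hi1, hi2⟩
        obtain ⟨i', h3, h4⟩ := k3 δ hδ hj u i
        exact Fb.of (h3.trans hi1) (LE_trans hi2 h4)
  · rw [LE_iff]
    refine ⟨⟨hht.ge, fun x j hx hj => ?_⟩, fun δ hδ hj => ?_⟩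
    · refine ⟨Finset.mem_union_right _ hx, fun k _ => ?_, fun j' _ _ k hk hk' => ?_⟩
      · change k ∈ (if (x, j) ∈ p.tw then p.el x j else q.el x j) ↔ _
        rw [e2 x j hj hx]
      · replace hk : k ∈ (if (x, j) ∈ p.tw then p.el x j else q.el x j) := hk
        rw [e2 x j hj hx] at hk
        exact absurd (hq.1.el hx hj hk) (not_lt.2 hk')
    · have hs := e3 δ hj hδ
      refine ⟨Finset.mem_union_right _ hδ, ?_, fun n hn1 hn2 => ?_, ?_⟩
      · change _ <+: (if δ ∈ p.dom then p.stem δ else q.stem δ)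
        rw [hs]
      · replace hn2 : n < (if δ ∈ p.dom then p.stem δ else q.stem δ).length := hn2
        rw [hs] at hn2
        exact absurd hn2 (not_lt.2 hn1)
      · rintro u m s _ _ _ ⟨i, hi1, hi2⟩
        obtain ⟨i', h3, h4⟩ := k4 δ hδ hj u i
        exact Fb.of (h3.trans hi1) (LE_trans hi2 h4)

/-- the finite part of a condition -/
private noncomputable def cccs_val (p : RC J X) : Option (J ⊕ X × J) → ℕ ⊕ List ℕ ⊕ Finset ℕ
  | none => Sum.inl p.ht
  | some (Sum.inl δ) => Sum.inr (Sum.inl (p.stem δ))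
  | some (Sum.inr t) => Sum.inr (Sum.inr (p.el t.1 t.2))

/-- the domain of the finite part of a condition -/
private noncomputable def cccs_dom (γ : J) (p : RC J X) : Finset (Option (J ⊕ X × J)) :=
  insert none ((p.dom.filter (· < γ)).image (fun δ => some (Sum.inl δ)) ∪
    (p.tw.filter (·.2 < γ)).image (fun t => some (Sum.inr t)))

/-- (A4) ccc -/
theorem ccc_proof (h1 : S_fn) (h2 : S_max) : S_ccc := by
  intro J X _ _ hl γ ih E A hA hinc
  refine h1 (RC J X) (Option (J ⊕ X × J)) (ℕ ⊕ List ℕ ⊕ Finset ℕ) A (cccs_dom γ) cccs_val ?_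
  intro p hp q hq hpq
  by_contra hcon
  push Not at hcon
  refine hinc p hp q hq hpq (cccs_amal h2 ih (hA hp) (hA hq) ?_ ?_ ?_)
  · have h3 := hcon none (by simp [cccs_dom]) (by simp [cccs_dom])
    simpa [cccs_val] using h3
  · intro δ hδ h3 h4
    have h5 := hcon (some (Sum.inl δ)) (by simp [cccs_dom, h3, hδ]) (by simp [cccs_dom, h4, hδ])
    simpa [cccs_val] using h5
  · intro x j hj h3 h4
    have h5 := hcon (some (Sum.inr (x, j))) (by simp [cccs_dom, h3, hj])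
      (by simp [cccs_dom, h4, hj])
    simpa [cccs_val] using h5

end Pool.Agent.FS
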