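import Pool.Agent.Lib.MP_e2257e_gt.A.Stmts

/-!
# MP_e2257e_gt : piece A10 (combination of two conditions with the same stem)
-/

set_option autoImplicit false

namespace Pool.Agent.FS

theorem comb_proof (h : S_max) : S_comb := by
  intro J X _ _ hl γ δ hδ hmax hh ih p d q hp hd hpd hdd hst hq hqp hqd
  obtain ⟨i1, i2, i3⟩ := ih Set.univ
  have hok : OkT hl Set.univ (none : Option (X × J)) := by
    intro x α hx
    cases hx
  obtain ⟨ν, β, _, h2, h3⟩ := h J X hl Set.univ δ i1 i2 (i3 none hok) {p, d}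
    ((Set.finite_singleton d).insert p)
    (by
      rintro x (rfl | hx)
      · exact ⟨hp.tot hpd hδ, fun u i => HE_univ _⟩
      · rw [Set.mem_singleton_iff] at hx
        subst hx
        exact ⟨hd.tot hdd hδ, fun u i => HE_univ _⟩)
  have hV : V hl γ (cut δ q) := V_cut hq γ
  have hA := setH_agr (cut δ q) δ (p.stem δ) ν β
  have hA' := cut_agr δ q
  have key : ∀ e : RC J X, V hl γ e → e.stem δ = p.stem δ → LE hl δ q e → e ∈ ({p, d} : Set _) →
      LE hl γ (setH (cut δ q) δ (p.stem δ) ν β) e := by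
    intro e he hes hqe hmem
    have h0 : LE hl δ (setH (cut δ q) δ (p.stem δ) ν β) e :=
      hA.le_left.2 (hA'.le_left.2 hqe)
    refine LE_of_parts h0 ⟨h0.ht, fun x j hx hj => ?_⟩ fun ε hε h4 h5 => ?_
    · have hjd : j < δ := by
        refine lt_of_le_of_ne (hmax j hj) ?_
        rintro rfl
        exact he.tl hx hj hh
      exact h0.tle.2 x j hx hjd
    · have hed : ε = δ := le_antisymm (hmax ε h5) h4
      subst hed
      refine ⟨mem_setH_dom.2 (Or.inl rfl), ?_, fun n h6 h7 => ?_, ?_⟩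
      · rw [setH_stem, hes]
      · rw [setH_stem] at h7
        rw [hes] at h6
        exact absurd h7 (not_lt.2 h6)
      · rintro u m r _ hr _ ⟨i, hi1, hi2⟩
        rw [setH_bd] at hi1
        rw [setH_nm] at hi2
        obtain ⟨i', h8, h9⟩ := h3 u i e hmem
        exact Fb.of (h8.trans hi1) (LE_trans hi2 h9)
  refine ⟨setH (cut δ q) δ (p.stem δ) ν β, V_setH hV hh h2, key p hp rfl hqp (Or.inl rfl),
    key d hd hst.symm hqd (Or.inr rfl), ?_⟩
  exact ⟨hA.ht.trans hA'.ht, fun ε h => (hA.dom ε h).trans (hA'.dom ε h),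
      fun ε h h' => (hA.stem ε h h').trans (hA'.stem ε h ((hA.dom ε h).1 h')),
      fun ε h h' => (hA.nm ε h h').trans (hA'.nm ε h ((hA.dom ε h).1 h')),
      fun ε h h' => (hA.bd ε h h').trans (hA'.bd ε h ((hA.dom ε h).1 h')),
      fun x j h => (hA.tw x j h).trans (hA'.tw x j h),
      fun x j h h' => (hA.el x j h h').trans (hA'.el x j h ((hA.tw x j h).1 h'))⟩

end Pool.Agent.FS
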