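import Pool.Agent.Lib.MP_e2257e_gt.A.Stmts

/-!
# MP_e2257e_gt : piece A10b (extending the stem by one number)
-/

set_option autoImplicit false

namespace Pool.Agent.FS

theorem ext_proof : S_ext := by
  intro J X _ _ hl γ δ hδ _ hh p q hp hdom hq hqp k hf
  have hgs : (glue q p δ).stem δ = p.stem δ := by rw [glue_stem, if_neg (lt_irrefl δ)]
  have hgn : (glue q p δ).nm δ = p.nm δ := by rw [glue_nm, if_neg (lt_irrefl δ)]
  have hgb : (glue q p δ).bd δ = p.bd δ := by rw [glue_bd, if_neg (lt_irrefl δ)]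
  have hV : V hl γ (glue q p δ) := V_glue hq hp hqp.ht
  have hA := setH_agr (glue q p δ) δ (p.stem δ ++ [k]) (p.nm δ) (p.bd δ)
  have hA' := glue_agr q p δ
  refine ⟨setH (glue q p δ) δ (p.stem δ ++ [k]) (p.nm δ) (p.bd δ), ?_, ?_, ?_, ?_, ?_⟩
  · exact V_setH hV hh (hp.tot hdom hδ)
  · refine LE_trans (setH_le hV fun _ => ?_) (glue_le hqp hp)
    refine ⟨mem_setH_dom.2 (Or.inl rfl), ?_, fun n h1 h2 => ?_, ?_⟩
    · rw [setH_stem, hgs]
      exact List.prefix_append _ _
    · rw [setH_stem] at h2 ⊢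
      rw [hgs] at h1
      have hn : n = (p.stem δ).length := by
        rw [List.length_append, List.length_singleton] at h2
        omega
      subst hn
      have e1 : (p.stem δ ++ [k]).take (p.stem δ).length = p.stem δ := by simp
      have e2 : (p.stem δ ++ [k]).getD (p.stem δ).length 0 = k := by simp
      rw [e1, e2]
      intro r hr hrq
      have h3 : LE hl δ r q := hA'.le_right.1 (hA.le_right.1 hrq)
      have h4 := hf r hr h3
      rw [hgn, hgb]
      exact h4
    · rintro u m r _ _ _ ⟨i, hi1, hi2⟩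
      rw [setH_bd] at hi1
      rw [setH_nm] at hi2
      refine Fb.of (i := i) ?_ ?_
      · rw [hgb]
        exact hi1
      · rw [hgn]
        exact hi2
  · exact ⟨hA.ht.trans hA'.ht, fun ε h => (hA.dom ε h).trans (hA'.dom ε h),
      fun ε h h' => (hA.stem ε h h').trans (hA'.stem ε h ((hA.dom ε h).1 h')),
      fun ε h h' => (hA.nm ε h h').trans (hA'.nm ε h ((hA.dom ε h).1 h')),
      fun ε h h' => (hA.bd ε h h').trans (hA'.bd ε h ((hA.dom ε h).1 h')),
      fun x j h => (hA.tw x j h).trans (hA'.tw x j h),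
      fun x j h h' => (hA.el x j h h').trans (hA'.el x j h ((hA.tw x j h).1 h'))⟩
  · exact mem_setH_dom.2 (Or.inl rfl)
  · exact setH_stem

end Pool.Agent.FS
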