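import Pool.Agent.Lib.MP_e2257e_gt.A.Stmts

/-!
# MP_e2257e_gt : the successor step at a Hechler level
-/

set_option autoImplicit false

namespace Pool.Agent.FS

theorem hech_proof (h1 : S_key) (h2 : S_outer) : S_hech := by
  intro J X _ _ hl γ δ hδγ hmax hhl ih E tgt hok D hD p hp
  have hn : OkT hl E (none : Option (X × J)) := by
    intro x α h
    cases h
  have main : ∀ p : RC J X, V hl γ p → δ ∈ p.dom → Concl hl E γ tgt D p := by
    intro p hp hdom
    have hD' : EInf hl E δ ∅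
        (fun _ => {a | a ∈ HV hl E δ ∧ Rk hl E δ (Good hl E γ δ D) (p.stem δ) a}) := by
      intro r hr _ m
      obtain ⟨a', ha', hle, hrk⟩ := h1 J X hl γ δ hδγ hmax hhl ih E D hD (p.stem δ) r hr
      exact ⟨a', ha', hle, m, le_rfl, ha', hrk⟩
    obtain ⟨q, hqV, hqle, k, -, -, d, -, hdD, hqd⟩ :=
      (ih E).2.2 none hn _ hD' p (V_mono hδγ.le hp) 0
    have hVg : V hl γ (glue q p δ) := V_glue hqV hp hqle.ht
    have hgle : LE hl γ (glue q p δ) p := glue_le hqle hp
    have hgdom : δ ∈ (glue q p δ).dom := mem_glue_dom.2 (Or.inr ⟨hdom, le_rfl⟩)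
    have hgst : (glue q p δ).stem δ = p.stem δ := by
      rw [glue_stem, if_neg (lt_irrefl _)]
    have h3 := h2 J X hl γ δ hδγ hmax hhl ih E tgt hok D (p.stem δ) d hdD.2 (glue q p δ) hVg
      hgdom hgst ((glue_agr q p δ).le_left.2 hqd)
    intro m
    obtain ⟨q', a, b, c⟩ := h3 m
    exact ⟨q', a, LE_trans b hgle, c⟩
  by_cases hd : δ ∈ p.dom
  · exact main p hp hd
  · have hV : V hl γ (setH p δ [] (fun _ _ => .one) (fun _ _ => 0)) :=
      V_setH hp hhl fun u => ⟨fun i => V_one δ, fun r hr =>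
        ⟨r, hr, LE_refl hr, 0, LE_one δ r⟩⟩
    have hle : LE hl γ (setH p δ [] (fun _ _ => .one) (fun _ _ => 0)) p :=
      setH_le hp fun h => absurd h hd
    have h3 := main _ hV (mem_setH_dom.2 (Or.inl rfl))
    intro m
    obtain ⟨q', a, b, c⟩ := h3 m
    exact ⟨q', a, LE_trans b hle, c⟩

end Pool.Agent.FS
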