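import Pool.Agent.Lib.MP_e2257e_gt.A.Stmts

/-!
# MP_e2257e_gt : every node is ranked (piece A9)
-/

set_option autoImplicit false

namespace Pool.Agent.FS

namespace Key_

variable {J X : Type} [LinearOrder J] [WellFoundedLT J] {hl : J → Prop}

theorem Rk_zero {E : Set X} {δ : J} {B : List ℕ → Set (RC J X)} {u : List ℕ} {a : RC J X}
    (h : a ∈ B u) : Rk hl E δ B u a := fun _ hB _ => hB u h

theorem Rk_intro {E : Set X} {δ : J} {B : List ℕ → Set (RC J X)} {u : List ℕ} {a : RC J X}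
    (ha : a ∈ HV hl E δ) (h : ∀ m, ∀ r ∈ HV hl E δ, LE hl δ r a → ∃ r' ∈ HV hl E δ,
      LE hl δ r' r ∧ ∃ k, m ≤ k ∧ Rk hl E δ B (u ++ [k]) r') : Rk hl E δ B u a := by
  intro R hB hR
  refine hR u a ha fun m r hr hra => ?_
  obtain ⟨r', h1, h2, k, h3, h4⟩ := h m r hr hra
  exact ⟨r', h1, h2, k, h3, h4 R hB hR⟩

theorem Rk_inv {E : Set X} {δ : J} {B : List ℕ → Set (RC J X)} {u : List ℕ} {a : RC J X}
    (h : Rk hl E δ B u a) : a ∈ B u ∨ ∀ m, ∀ r ∈ HV hl E δ, LE hl δ r a → ∃ r' ∈ HV hl E δ,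
      LE hl δ r' r ∧ ∃ k, m ≤ k ∧ Rk hl E δ B (u ++ [k]) r' := by
  have h1 := h (fun u => {a | Rk hl E δ B u a ∧ (a ∈ B u ∨ ∀ m, ∀ r ∈ HV hl E δ,
    LE hl δ r a → ∃ r' ∈ HV hl E δ, LE hl δ r' r ∧ ∃ k, m ≤ k ∧ Rk hl E δ B (u ++ [k]) r')})
    (fun u a ha => ⟨Rk_zero ha, Or.inl ha⟩) (fun u a ha hc => by
      have h2 : ∀ m, ∀ r ∈ HV hl E δ, LE hl δ r a → ∃ r' ∈ HV hl E δ,
          LE hl δ r' r ∧ ∃ k, m ≤ k ∧ Rk hl E δ B (u ++ [k]) r' := by
        intro m r hr hra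
        obtain ⟨r', h1, h2, k, h3, h4⟩ := hc m r hr hra
        exact ⟨r', h1, h2, k, h3, h4.1⟩
      exact ⟨Rk_intro ha h2, Or.inr h2⟩)
  exact h1.2

/-- no extension of `a` forces that `u` is ranked -/
def NR (hl : J → Prop) (E : Set X) (δ : J) (B : List ℕ → Set (RC J X)) (u : List ℕ)
    (a : RC J X) : Prop := ∀ r ∈ HV hl E δ, LE hl δ r a → ¬ Rk hl E δ B u r

theorem NR.open' {E : Set X} {δ : J} {B : List ℕ → Set (RC J X)} {u : List ℕ}
    {a r : RC J X} (h : NR hl E δ B u a) (hr : LE hl δ r a) : NR hl E δ B u r :=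
  fun s hs hsr => h s hs (LE_trans hsr hr)

theorem NR.step {E : Set X} {δ : J} {B : List ℕ → Set (RC J X)} {u : List ℕ} {r : RC J X}
    (h : NR hl E δ B u r) (hr : r ∈ HV hl E δ) :
    ∃ r' ∈ HV hl E δ, LE hl δ r' r ∧ ∃ M, ∀ i, M ≤ i → NR hl E δ B (u ++ [i]) r' := by
  by_contra hcon
  push Not at hcon
  refine h r hr (LE_refl hr.1) (Rk_intro hr fun m r1 hr1 hr1r => ?_)
  obtain ⟨i, hi, hN⟩ := hcon r1 hr1 hr1r m
  unfold NR at hN
  push Not at hN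
  obtain ⟨r', h1, h2, h3⟩ := hN
  exact ⟨r', h1, h2, i, hi, h3⟩

theorem NR.fin {E : Set X} {δ : J} {A : ℕ → List ℕ → Set (RC J X)} {u : List ℕ} {r : RC J X}
    {m0 : ℕ} (h : ∀ k, m0 ≤ k → NR hl E δ (A k) u r) (hr : r ∈ HV hl E δ) (n : ℕ) :
    ∃ r' ∈ HV hl E δ, LE hl δ r' r ∧ ∃ M, ∀ k, m0 ≤ k → k < n → ∀ i, M ≤ i →
      NR hl E δ (A k) (u ++ [i]) r' := by
  induction n with
  | zero => exact ⟨r, hr, LE_refl hr.1, 0, fun k _ hk => absurd hk (Nat.not_lt_zero k)⟩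
  | succ n ih =>
    obtain ⟨r1, h1, h2, M1, h3⟩ := ih
    by_cases hn : m0 ≤ n
    · obtain ⟨r2, h4, h5, M2, h6⟩ := ((h n hn).open' h2).step h1
      refine ⟨r2, h4, LE_trans h5 h2, max M1 M2, fun k hk1 hk2 i hi => ?_⟩
      rcases Nat.lt_succ_iff_lt_or_eq.1 hk2 with hk | hk
      · exact (h3 k hk1 hk i ((le_max_left _ _).trans hi)).open' h5
      · subst hk
        exact h6 i ((le_max_right _ _).trans hi)
    · exact ⟨r1, h1, h2, M1, fun k hk1 hk2 => absurd (hk1.trans (Nat.lt_succ_iff.1 hk2)) hn⟩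

/-- neither `Good` nor any `Ak` with `k ≥ m0` ranks the node `u` below `r` -/
def Alive (hl : J → Prop) (E : Set X) (γ δ : J) (D : ℕ → Set (RC J X)) (m0 : ℕ) (u : List ℕ)
    (r : RC J X) : Prop :=
  NR hl E δ (Good hl E γ δ D) u r ∧ ∀ k, m0 ≤ k → NR hl E δ (Ak hl E γ δ D k) u r

theorem Alive.open' {E : Set X} {γ δ : J} {D : ℕ → Set (RC J X)} {m0 : ℕ} {u : List ℕ}
    {a r : RC J X} (h : Alive hl E γ δ D m0 u a) (hr : LE hl δ r a) :
    Alive hl E γ δ D m0 u r :=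
  ⟨h.1.open' hr, fun k hk => (h.2 k hk).open' hr⟩

/-- a node which is not ranked over `Good` -/
theorem not_good {E : Set X} {γ δ : J} {D : ℕ → Set (RC J X)} {u : List ℕ} {r : RC J X}
    (h : NR hl E δ (Good hl E γ δ D) u r) (hr : r ∈ HV hl E δ) :
    ∃ r1 ∈ HV hl E δ, LE hl δ r1 r ∧ ∃ m1, ∀ r' ∈ HV hl E δ, LE hl δ r' r1 → ∀ k, m1 ≤ k →
      r' ∉ Ak hl E γ δ D k u ∧ ∀ i, m1 ≤ i → ¬ Rk hl E δ (Ak hl E γ δ D k) (u ++ [i]) r' := by
  by_contra hcon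
  push Not at hcon
  refine h r hr (LE_refl hr.1) (Rk_zero ⟨hr, fun m r1 hr1 hr1r => ?_⟩)
  obtain ⟨r', h1, h2, k, h3, h4⟩ := hcon r1 hr1 hr1r m
  refine ⟨r', h1, h2, k, h3, ?_⟩
  by_cases h5 : r' ∈ Ak hl E γ δ D k u
  · exact Or.inl h5
  · exact Or.inr (h4 h5)

theorem Alive.step {E : Set X} {γ δ : J} {D : ℕ → Set (RC J X)} {m0 : ℕ} {u : List ℕ}
    {r : RC J X} (h : Alive hl E γ δ D m0 u r) (hr : r ∈ HV hl E δ) :
    ∃ r' ∈ HV hl E δ, LE hl δ r' r ∧ ∃ M, ∀ i, M ≤ i → Alive hl E γ δ D m0 (u ++ [i]) r' := by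
  obtain ⟨r1, h1, h2, m1, h3⟩ := not_good h.1 hr
  obtain ⟨r2, h4, h5, M2, h6⟩ := (h.1.open' h2).step h1
  have h52 := LE_trans h5 h2
  obtain ⟨r3, h7, h8, M3, h9⟩ := NR.fin (fun k hk => (h.2 k hk).open' h52) h4 m1
  refine ⟨r3, h7, LE_trans h8 h52, max m1 (max M2 M3), fun i hi => ?_⟩
  have hi1 : m1 ≤ i := (le_max_left _ _).trans hi
  have hi2 : M2 ≤ i := ((le_max_left _ _).trans (le_max_right _ _)).trans hi
  have hi3 : M3 ≤ i := ((le_max_right _ _).trans (le_max_right _ _)).trans hi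
  refine ⟨(h6 i hi2).open' h8, fun k hk => ?_⟩
  rcases lt_or_ge k m1 with hk1 | hk1
  · exact h9 k hk hk1 i hi3
  · intro r' hr' hr'3
    exact (h3 r' hr' (LE_trans hr'3 (LE_trans h8 h5)) k hk1).2 i hi1

end Key_

open Key_

theorem key_proof (h : S_name) : S_key := by
  intro J X _ _ hl γ δ hδγ _hmax hδ hIH E D hD s a ha
  obtain ⟨hccc, hrefl, hhit⟩ := hIH E
  have hhit0 : Hit hl E δ none := hhit none (fun x α hx => by simp at hx)
  by_contra hcon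
  push Not at hcon
  have hNR : NR hl E δ (Good hl E γ δ D) s a := hcon
  obtain ⟨a0, ha0, ha0a, m0, hm0⟩ := not_good hNR ha
  -- `s` is alive below `a0`
  have hAs : Alive hl E γ δ D m0 s a0 := by
    refine ⟨hNR.open' ha0a, fun k hk r hr hra hRk => ?_⟩
    rcases Rk_inv hRk with h1 | h1
    · exact (hm0 r hr hra k hk).1 h1
    · obtain ⟨r', h2, h3, i, h4, h5⟩ := h1 m0 r hr (LE_refl hr.1)
      exact (hm0 r' h2 (LE_trans h3 hra) k hk).2 i h4 h5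
  -- the names
  have hO : ∀ u : List ℕ, ∃ (ν : ℕ → RC J X) (β : ℕ → ℕ),
      (∀ i, ν i ∈ {r | r ∈ HV hl E δ ∧ ((∀ j, β i ≤ j → Alive hl E γ δ D m0 (u ++ [j]) r) ∨
        ∀ r' ∈ HV hl E δ, LE hl δ r' r → ¬ Alive hl E γ δ D m0 u r')}) ∧
      ∀ r, V hl δ r → ∃ r', V hl δ r' ∧ LE hl δ r' r ∧ ∃ i, LE hl δ r' (ν i) := by
    intro u
    refine h J X hl E δ hccc hhit0 (fun M => {r | r ∈ HV hl E δ ∧
      ((∀ j, M ≤ j → Alive hl E γ δ D m0 (u ++ [j]) r) ∨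
        ∀ r' ∈ HV hl E δ, LE hl δ r' r → ¬ Alive hl E γ δ D m0 u r')}) (fun m r hr => hr.1) ?_
    intro r hr
    by_cases hex : ∃ r' ∈ HV hl E δ, LE hl δ r' r ∧ Alive hl E γ δ D m0 u r'
    · obtain ⟨r1, h1, h2, h3⟩ := hex
      obtain ⟨r2, h4, h5, M, h6⟩ := h3.step h1
      exact ⟨r2, h4, LE_trans h5 h2, M, h4, Or.inl h6⟩
    · push Not at hex
      exact ⟨r, hr, LE_refl hr.1, 0, hr, Or.inr hex⟩
  choose ν β hν hνd using hO
  -- the condition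
  have hcV : V hl γ (setH (cut δ a0) δ s ν β) :=
    V_setH (V_cut ha0.1 γ) hδ fun u => ⟨fun i => (hν u i).1.1, hνd u⟩
  have hcE : HE E (setH (cut δ a0) δ s ν β) := HE_setH (HE_cut ha0.2 δ) fun u i => (hν u i).1.2
  obtain ⟨c', hc', hc'c, k, hk, hkD⟩ := hD _ ⟨hcV, hcE⟩ (fun b hb => absurd hb (Set.notMem_empty b)) m0
  have hHLE := hc'c.hle (δ := δ) (mem_setH_dom.2 (Or.inl rfl)) hδγ
  obtain ⟨hdom, hpre, hfan, _⟩ := hHLE
  rw [setH_stem] at hpre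
  simp only [setH_stem] at hfan
  have hc'δ : c' ∈ HV hl E δ := ⟨V_mono hδγ.le hc'.1, hc'.2⟩
  have hc'a0 : LE hl δ c' a0 := by
    have h1 := LE_mono hδγ.le hc'c
    exact (cut_agr δ a0).le_right.1 ((setH_agr (cut δ a0) δ s ν β).le_right.1 h1)
  have hind : ∀ n, s.length ≤ n → n ≤ (c'.stem δ).length →
      ∃ r ∈ HV hl E δ, LE hl δ r c' ∧ Alive hl E γ δ D m0 ((c'.stem δ).take n) r := by
    intro n hn
    induction n, hn using Nat.le_induction with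
    | base =>
      intro _
      refine ⟨c', hc'δ, LE_refl hc'δ.1, ?_⟩
      rw [← List.prefix_iff_eq_take.1 hpre]
      exact hAs.open' hc'a0
    | succ n hn ih =>
      intro hn1
      obtain ⟨r, hr, hrc, hA⟩ := ih (Nat.le_of_succ_le hn1)
      obtain ⟨r1, hr1, hr1r, i, hi1, hi2⟩ := hfan n hn (Nat.lt_of_succ_le hn1) r hr.1 hrc
      rw [setH_bd] at hi1
      rw [setH_nm] at hi2
      have hνi := hν ((c'.stem δ).take n) i
      obtain ⟨r2, hr2, hr2A⟩ := hrefl {r, ν ((c'.stem δ).take n) i} (Set.toFinite _)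
        (by
          intro x hx
          rcases hx with rfl | hx
          · exact hr
          · rw [Set.mem_singleton_iff] at hx
            subst hx
            exact hνi.1) r1 hr1
        (by
          intro x hx
          rcases hx with rfl | hx
          · exact hr1r
          · rw [Set.mem_singleton_iff] at hx
            subst hx
            exact hi2)
      have hr2r : LE hl δ r2 r := hr2A r (Or.inl rfl)
      have hr2ν : LE hl δ r2 (ν ((c'.stem δ).take n) i) := hr2A _ (Or.inr rfl)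
      refine ⟨r2, hr2, LE_trans hr2r hrc, ?_⟩
      have htake : (c'.stem δ).take (n + 1) =
          (c'.stem δ).take n ++ [(c'.stem δ).getD n 0] := by
        have hlt : n < (c'.stem δ).length := Nat.lt_of_succ_le hn1
        rw [List.take_succ_eq_append_getElem hlt, List.getD_eq_getElem _ _ hlt]
      rw [htake]
      rcases hνi.2 with h1 | h1
      · exact (h1 _ hi1).open' hr2ν
      · exact absurd (hA.open' hr2r) (h1 r2 hr2 hr2ν)
  obtain ⟨r, hr, hrc, hA⟩ := hind _ hpre.length_le le_rfl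
  rw [List.take_length] at hA
  refine hA.2 k hk r hr (LE_refl hr.1) (Rk_zero ?_)
  exact ⟨hr, c', hc', ⟨c', hc', hkD, LE_refl hc'.1⟩, hdom, rfl, hrc⟩

end Pool.Agent.FS
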