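import Pool.Agent.Lib.MP_e2257e_gt.A.Stmts

/-!
# MP_e2257e_gt : the iteration, the limit step (A7)
-/

set_option autoImplicit false

namespace Pool.Agent.FS

namespace Lim_

variable {J X : Type} [LinearOrder J] [WellFoundedLT J] {hl : J → Prop}

omit [WellFoundedLT J] in
/-- a level above finitely many levels -/
private theorem ex_above {γ j0 : J} (h0 : j0 < γ) (hlim : ∀ δ < γ, ∃ δ' < γ, δ < δ')
    (T : Finset J) : ∃ δ < γ, ∀ j ∈ T, j < γ → j < δ := by
  classical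
  induction T using Finset.induction_on with
  | empty => exact ⟨j0, h0, fun j hj => absurd hj (Finset.notMem_empty _)⟩
  | insert a T _ ih =>
    obtain ⟨δ, hδ, h⟩ := ih
    by_cases ha : a < γ
    · obtain ⟨δ', h1, h2⟩ := hlim (max a δ) (max_lt ha hδ)
      refine ⟨δ', h1, fun j hj hjg => ?_⟩
      rcases Finset.mem_insert.1 hj with h3 | h3
      · subst h3
        exact (le_max_left _ _).trans_lt h2
      · exact (h j h3 hjg).trans ((le_max_right _ _).trans_lt h2)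
    · refine ⟨δ, hδ, fun j hj hjg => ?_⟩
      rcases Finset.mem_insert.1 hj with h3 | h3
      · subst h3
        exact absurd hjg ha
      · exact h j h3 hjg

/-- the bottom step -/
private theorem bottom {γ : J} (hno : ∀ j : J, ¬ j < γ) (E : Set X) (tgt : Option (X × J)) :
    Hit hl E γ tgt := by
  intro D hD p hp m
  have hV : ∀ q : RC J X, V hl γ q := fun q => (V_iff hl).2
    ⟨fun x j _ hj => absurd hj (hno j), fun δ _ hj => absurd hj (hno δ)⟩
  have hLE : ∀ q q' : RC J X, q'.ht ≤ q.ht → LE hl γ q q' := fun q q' h => (LE_iff hl).2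
    ⟨⟨h, fun x j _ hj => absurd hj (hno j)⟩, fun δ _ hj => absurd hj (hno δ)⟩
  have h1 : (raise RC.one p.ht : RC J X) ∈ HV hl E γ := 
    ⟨hV _, HE_raise (show HE E (RC.one : RC J X) from trivial) _⟩
  obtain ⟨r', h2, h3, k, h4, h5⟩ := hD _ h1 (fun b hb => absurd hb (Set.notMem_empty _)) m
  have h6 : p.ht ≤ r'.ht := (le_max_right _ _).trans h3.ht
  exact ⟨r', h2.1, hLE _ _ h6, k, h4, fun x α _ hα => absurd hα (hno α), r', h2, h5,
    LE_refl h2.1⟩

end Lim_

open Lim_ in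
theorem lim_proof : S_lim := by
  classical
  intro J X _ _ hl γ hlim ih E tgt ht
  by_cases hno : ∀ j : J, ¬ j < γ
  · exact bottom hno E tgt
  push Not at hno
  obtain ⟨j0, hj0⟩ := hno
  intro D hD p hp m
  obtain ⟨δ, hδ, hT⟩ := ex_above hj0 hlim
    (p.dom ∪ p.tw.image Prod.snd ∪ (tgt.map Prod.snd).toFinset)
  have hdom : ∀ ε ∈ p.dom, ε < γ → ε < δ := fun ε hε => hT ε
    (Finset.mem_union_left _ (Finset.mem_union_left _ hε))
  have htw : ∀ x j, (x, j) ∈ p.tw → j < γ → j < δ := fun x j hx => hT j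
    (Finset.mem_union_left _ (Finset.mem_union_right _ (Finset.mem_image.2 ⟨(x, j), hx, rfl⟩)))
  have htg : ∀ x α, tgt = some (x, α) → α < γ → α < δ := fun x α hx => hT α
    (Finset.mem_union_right _ (by simp [hx]))
  have hD' : EInf hl E δ ∅ fun k => {r | r ∈ HV hl E δ ∧ ∃ d ∈ HV hl E γ, d ∈ D k ∧
      LE hl δ r d} := by
    intro r hr _ n
    obtain ⟨r', h2, h3, k, h4, h5⟩ := hD (cut δ r) ⟨V_cut hr.1 γ, HE_cut hr.2 δ⟩
      (fun b hb => absurd hb (Set.notMem_empty _)) n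
    have h6 : r' ∈ HV hl E δ := ⟨V_mono hδ.le h2.1, h2.2⟩
    exact ⟨r', h6, (le_cut_iff hδ.le).1 h3, k, h4, h6, r', h2, h5, LE_refl h6.1⟩
  obtain ⟨q, hq, hqp, k, hk, hgot, d', _, ⟨_, d, hd, hdk, hd'⟩, hqd'⟩ :=
    (ih δ hδ E).2.2 tgt ht _ hD' p (V_mono hδ.le hp) m
  have hqd : LE hl δ q d := LE_trans hqd' hd'
  refine ⟨glue q d δ, V_glue hq hd.1 hqd.ht, ?_, k, hk, ?_, d, hd, hdk, glue_le hqd hd.1⟩
  · have h1 : LE hl δ (glue q d δ) p := (glue_agr q d δ).le_left.2 hqp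
    rw [LE_iff]
    refine ⟨⟨h1.ht, fun x j hx hj => ⟨h1.tw hx (htw x j hx hj), fun n hn =>
      h1.el hx (htw x j hx hj) hn, fun j' hj' hx' n hn hn' =>
      h1.coh hx (htw x j hx hj) hj' hx' hn hn'⟩⟩, fun ε hε hj => h1.hle hε (hdom ε hε hj)⟩
  · intro x α hx hα
    have h1 := htg x α hx hα
    obtain ⟨h2, h3⟩ := hgot x α hx h1
    refine ⟨mem_glue_tw.2 (Or.inl ⟨h2, h1⟩), ?_⟩
    rw [glue_el, if_pos h1]
    exact h3

end Pool.Agent.FS
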