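import Pool.Agent.Lib.MP_e2257e_gt.A.Stmts

/-!
# MP_e2257e_gt : the maximum of finitely many names (A3)
-/

set_option autoImplicit false

namespace Pool.Agent.FS

namespace Max_

variable {J X : Type} [LinearOrder J] [WellFoundedLT J] {hl : J → Prop}

theorem step {δ : J} {Q : Set (RC J X)} (hQ : Q.Finite) (hT : ∀ q ∈ Q, Tot hl δ q)
    (u : List ℕ) : ∀ r, V hl δ r → ∃ r1, V hl δ r1 ∧ LE hl δ r1 r ∧
      ∀ q ∈ Q, ∃ i, LE hl δ r1 (q.nm δ u i) := by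
  induction Q, hQ using Set.Finite.induction_on with
  | empty => intro r hr; exact ⟨r, hr, LE_refl hr, fun q hq => absurd hq (Set.notMem_empty q)⟩
  | @insert a s _ _ ih =>
    intro r hr
    obtain ⟨r1, h1, h2, h3⟩ := ih (fun q hq => hT q (Set.mem_insert_of_mem _ hq)) r hr
    obtain ⟨r2, h4, h5, i, h6⟩ := (hT a (Set.mem_insert _ _) u).2 r1 h1
    refine ⟨r2, h4, LE_trans h5 h2, fun q hq => ?_⟩
    rcases hq with rfl | hq
    · exact ⟨i, h6⟩
    · obtain ⟨i', h7⟩ := h3 q hq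
      exact ⟨i', LE_trans h5 h7⟩

end Max_

theorem max_proof (h : S_name) : S_max := by
  intro J X _ _ hl E δ hc hR hH Q hQ hQT
  classical
  have key : ∀ u : List ℕ, ∃ (ν : ℕ → RC J X) (β : ℕ → ℕ),
      (∀ i, ν i ∈ {a | a ∈ HV hl E δ ∧ ∀ q ∈ Q, ∃ i', q.bd δ u i' ≤ β i ∧
        LE hl δ a (q.nm δ u i')}) ∧
      ∀ r, V hl δ r → ∃ r', V hl δ r' ∧ LE hl δ r' r ∧ ∃ i, LE hl δ r' (ν i) := by
    intro u
    refine h J X hl E δ hc hH (fun m => {a | a ∈ HV hl E δ ∧ ∀ q ∈ Q, ∃ i', q.bd δ u i' ≤ m ∧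
        LE hl δ a (q.nm δ u i')}) (fun m a ha => ha.1) ?_
    intro r hr
    obtain ⟨r1, h1, h2, h3⟩ := Max_.step hQ (fun q hq => (hQT q hq).1) u r hr.1
    choose! idx hidx using h3
    obtain ⟨q', hq', hle⟩ := hR (insert r ((fun q => q.nm δ u (idx q)) '' Q))
      ((hQ.image _).insert r) (by
        rintro a (rfl | ⟨q, hq, rfl⟩)
        · exact hr
        · exact ⟨((hQT q hq).1 u).1 _, (hQT q hq).2 u _⟩) r1 h1 (by
        rintro a (rfl | ⟨q, hq, rfl⟩)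
        · exact h2
        · exact hidx q hq)
    obtain ⟨m, hm⟩ := (hQ.image fun q => q.bd δ u (idx q)).bddAbove
    refine ⟨q', hq', hle r (Set.mem_insert _ _), m, hq', fun q hq => ⟨idx q, ?_, ?_⟩⟩
    · exact hm (Set.mem_image_of_mem _ hq)
    · exact hle _ (Set.mem_insert_of_mem _ (Set.mem_image_of_mem _ hq))
  choose ν β h1 h2 using key
  refine ⟨ν, β, fun u i => (h1 u i).1.2, fun u => ⟨fun i => (h1 u i).1.1, h2 u⟩, ?_⟩
  intro u i q hq
  exact (h1 u i).2 q hq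

end Pool.Agent.FS
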