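import Pool.Agent.Lib.MP_e2257e_gt.A.Stmts

/-!
# MP_e2257e_gt : names from ccc
-/

set_option autoImplicit false

namespace Pool.Agent.FS

namespace Name_

variable {J X : Type} [LinearOrder J] [WellFoundedLT J] {hl : J → Prop}

/-- a maximal family of pairwise incompatible conditions in a dense set is predense -/
theorem exists_max (E : Set X) (δ : J) (S : Set (RC J X))
    (hd : ∀ r ∈ HV hl E δ, ∃ r' ∈ HV hl E δ, LE hl δ r' r ∧ r' ∈ S) :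
    ∃ A : Set (RC J X), A ⊆ S ∧
      (∀ p ∈ A, ∀ q ∈ A, p ≠ q → ¬ ∃ r ∈ HV hl E δ, LE hl δ r p ∧ LE hl δ r q) ∧
      ∀ r ∈ HV hl E δ, ∃ r' ∈ HV hl E δ, LE hl δ r' r ∧ ∃ a ∈ A, LE hl δ r' a := by
  obtain ⟨A, hA⟩ := zorn_subset {A : Set (RC J X) | A ⊆ S ∧
      ∀ p ∈ A, ∀ q ∈ A, p ≠ q → ¬ ∃ r ∈ HV hl E δ, LE hl δ r p ∧ LE hl δ r q} (by
    intro c hc hch
    refine ⟨⋃₀ c, ⟨Set.sUnion_subset fun s hs => (hc hs).1, ?_⟩,
      fun s hs => Set.subset_sUnion_of_mem hs⟩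
    rintro p ⟨s, hs, hps⟩ q ⟨t, ht, hqt⟩ hpq
    rcases hch.total hs ht with h | h
    · exact (hc ht).2 p (h hps) q hqt hpq
    · exact (hc hs).2 p hps q (h hqt) hpq)
  refine ⟨A, hA.prop.1, hA.prop.2, fun r hr => ?_⟩
  obtain ⟨r', h1, h2, h3⟩ := hd r hr
  by_contra hcon
  push Not at hcon
  have hno : ∀ a ∈ A, ¬ ∃ s ∈ HV hl E δ, LE hl δ s r' ∧ LE hl δ s a := by
    rintro a ha ⟨s, hs, hs1, hs2⟩
    exact hcon s hs (LE_trans hs1 h2) a ha hs2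
  have hmem : insert r' A ∈ {A : Set (RC J X) | A ⊆ S ∧
      ∀ p ∈ A, ∀ q ∈ A, p ≠ q → ¬ ∃ r ∈ HV hl E δ, LE hl δ r p ∧ LE hl δ r q} := by
    refine ⟨Set.insert_subset h3 hA.prop.1, ?_⟩
    intro p hp q hq hpq
    rcases hp with rfl | hp
    · rcases hq with rfl | hq
      · exact absurd rfl hpq
      · exact hno q hq
    · rcases hq with rfl | hq
      · rintro ⟨s, hs, hs1, hs2⟩
        exact hno p hp ⟨s, hs, hs2, hs1⟩
      · exact hA.prop.2 p hp q hq hpq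
  have hle : insert r' A ⊆ A := hA.le_of_ge hmem (Set.subset_insert _ _)
  have hr'A : r' ∈ A := hle (Set.mem_insert _ _)
  exact hno r' hr'A ⟨r', h1, LE_refl h1.1, LE_refl h1.1⟩

end Name_

theorem name_proof : S_name := by
  intro J X _ _ hl E δ hccc hhit O hO hd
  obtain ⟨A, hA1, hA2, hA3⟩ := Name_.exists_max (hl := hl) E δ {a | ∃ m, a ∈ O m}
    hd
  have hAHV : A ⊆ HV hl E δ := fun a ha => by
    obtain ⟨m, hm⟩ := hA1 ha
    exact hO m hm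
  have hcount : A.Countable := hccc A hAHV hA2
  have hne : A.Nonempty := by
    obtain ⟨r', _, _, a, ha, _⟩ := hA3 RC.one ⟨V_one δ, trivial⟩
    exact ⟨a, ha⟩
  obtain ⟨ν, hν⟩ := hcount.exists_eq_range hne
  have hνO : ∀ i, ∃ m, ν i ∈ O m := fun i => hA1 (hν ▸ Set.mem_range_self i)
  choose β hβ using hνO
  refine ⟨ν, β, hβ, fun r hr => ?_⟩
  obtain ⟨q, hq1, hq2, k, _, _, d, _, hd2, hd3⟩ := hhit
    (fun _ => {d | d ∈ HV hl E δ ∧ ∃ i, LE hl δ d (ν i)}) (by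
      intro r hr _ m
      obtain ⟨r', h1, h2, a, ha, h3⟩ := hA3 r hr
      rw [hν] at ha
      obtain ⟨i, rfl⟩ := ha
      exact ⟨r', h1, h2, m, le_rfl, h1, i, h3⟩) r hr 0
  obtain ⟨_, i, hi⟩ := hd2
  exact ⟨q, hq1, hq2, i, LE_trans hd3 hi⟩

end Pool.Agent.FS
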