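import Pool.Agent.Lib.MP_e2257e_gt.A.Stmts

/-!
# MP_e2257e_gt : descending the rank over `Good`
-/

set_option autoImplicit false

namespace Pool.Agent.FS

namespace Outer_

variable {J X : Type} [LinearOrder J] [WellFoundedLT J] {hl : J → Prop}

/-- the target below `γ` is the target below `δ` -/
theorem got_agr {γ δ : J} (hmax : ∀ j < γ, j ≤ δ) (hh : hl δ) {E : Set X}
    {tgt : Option (X × J)} (ho : OkT hl E tgt) {q q' : RC J X} {k : ℕ}
    (hg : Got δ tgt q k) (ha : Agr δ q' q) : Got γ tgt q' k := by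
  intro x α hx hα
  have h1 := (ho x α hx).2
  have h2 : α < δ := by
    rcases lt_or_eq_of_le (hmax α hα) with h | h
    · exact h
    · subst h
      exact absurd hh h1
  obtain ⟨h3, h4⟩ := hg x α hx h2
  have h5 : (x, α) ∈ q'.tw := (ha.tw x α h2).2 h3
  refine ⟨h5, ?_⟩
  rw [ha.el x α h2 h5]
  exact h4

theorem got_le {γ : J} {tgt : Option (X × J)} {q q' : RC J X} {k : ℕ} (hq : V hl γ q)
    (hg : Got γ tgt q k) (h : LE hl γ q' q) : Got γ tgt q' k := by
  intro x α hx hα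
  obtain ⟨h3, h4⟩ := hg x α hx hα
  exact ⟨h.tw h3 hα, (h.el h3 hα (hq.el h3 hα h4)).2 h4⟩

/-- a condition below `δ` deciding a bound for the name of `p` at the stem -/
theorem decide {γ δ : J} (hδ : δ < γ) {p : RC J X} (hp : V hl γ p) (hd : δ ∈ p.dom) :
    ∃ q1, V hl δ q1 ∧ LE hl δ q1 p ∧ ∃ M, Fb hl δ p (p.stem δ) M q1 := by
  obtain ⟨r', h1, h2, i, h3⟩ := (hp.tot hd hδ (p.stem δ)).2 p (V_mono hδ.le hp)
  exact ⟨r', h1, h2, p.bd δ (p.stem δ) i, Fb.of le_rfl h3⟩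

end Outer_

theorem outer_proof (h1 : S_rel) (h2 : S_comb) (h3 : S_ext) (h4 : S_inner) : S_outer := by
  intro J X _ _ hl γ δ hδ hmax hh hIH E tgt ho D u a hRk
  have hrefl : Refl hl E δ := (hIH E).2.1
  have hnone : OkT hl E (none : Option (X × J)) := fun x α h => by simp at h
  have hitn : HitB hl E δ none := h1 J X hl δ E none hrefl ((hIH E).2.2 none hnone)
  have hitt : HitB hl E δ tgt := h1 J X hl δ E tgt hrefl ((hIH E).2.2 tgt ho)
  have key := hRk (fun u => {a | a ∈ HV hl E δ ∧ ∀ p, V hl γ p → δ ∈ p.dom → p.stem δ = u →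
    LE hl δ p a → Concl hl E γ tgt D p}) ?_ ?_
  · exact key.2
  · -- `Good u ⊆ R u`
    intro u a ha
    obtain ⟨haV, hgood⟩ := ha
    refine ⟨haV, fun p hp hd hs hpa m => ?_⟩
    obtain ⟨q1, hq1, hq1p, M, hM⟩ := Outer_.decide hδ hp hd
    rw [hs] at hM
    obtain ⟨q2, hq2, hq21, k, hmk, hgot, r', hr'V, hr'D, hqr'⟩ := hitt {a} (Set.finite_singleton a)
      (by simpa using haV)
      (fun k => {r | r ∈ HV hl E δ ∧ (r ∈ Ak hl E γ δ D k u ∨
        ∃ i, M ≤ i ∧ Rk hl E δ (Ak hl E γ δ D k) (u ++ [i]) r)})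
      (by
        intro r hr hra m'
        obtain ⟨r', b1, b2, k, b3, b4⟩ := hgood (max m' M) r hr (hra a rfl)
        refine ⟨r', b1, b2, k, (le_max_left _ _).trans b3, b1, ?_⟩
        rcases b4 with b4 | ⟨i, b4, b5⟩
        · exact Or.inl b4
        · exact Or.inr ⟨i, (le_max_right _ _).trans b4, b5⟩)
      q1 hq1 (by
        intro b hb
        rw [Set.mem_singleton_iff] at hb
        rw [hb]
        exact LE_trans hq1p hpa) m
    have hq2p : LE hl δ q2 p := LE_trans hq21 hq1p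
    rcases hr'D.2 with hc | ⟨i, hi, hc⟩
    · obtain ⟨-, d, hdV, ⟨d0, hd0V, hd0D, hdd0⟩, hdd, hds, hr'd⟩ := hc
      obtain ⟨q', c1, c2, c3, c4⟩ := h2 J X hl γ δ hδ hmax hh hIH p d q2 hp hdV.1 hd hdd
        (hs.trans hds.symm) hq2 hq2p (LE_trans hqr' hr'd)
      exact ⟨q', c1, c2, k, hmk, Outer_.got_agr hmax hh ho hgot c4, d0, hd0V, hd0D,
        LE_trans c3 hdd0⟩
    · obtain ⟨q3, c1, c2, c3, c4, c5⟩ := h3 J X hl γ δ hδ hmax hh p q2 hp hd hq2 hq2p i (by
        rw [hs]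
        exact hM.mono hq21 hi)
      obtain ⟨q4, e1, e2, d, e3, e4, e5⟩ := h4 J X hl γ δ hδ hmax hh hIH E D k (u ++ [i]) r' hc
        q3 c1 c4 (by rw [c5, hs]) (c3.le_left.2 hqr')
      exact ⟨q4, e1, LE_trans e2 c2, k, hmk,
        Outer_.got_le c1 (Outer_.got_agr hmax hh ho hgot c3) e2, d, e3, e4, e5⟩
  · -- closure
    intro u a haV hcl
    refine ⟨haV, fun p hp hd hs hpa => ?_⟩
    obtain ⟨q1, hq1, hq1p, M, hM⟩ := Outer_.decide hδ hp hd
    rw [hs] at hM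
    obtain ⟨q2, hq2, hq21, k, hMk, -, r', hr'V, hr'D, hqr'⟩ := hitn {a} (Set.finite_singleton a)
      (by simpa using haV)
      (fun k => {r | r ∈ HV hl E δ ∧ ∀ p, V hl γ p → δ ∈ p.dom → p.stem δ = u ++ [k] →
        LE hl δ p r → Concl hl E γ tgt D p})
      (by
        intro r hr hra m'
        exact hcl m' r hr (hra a rfl))
      q1 hq1 (by
        intro b hb
        rw [Set.mem_singleton_iff] at hb
        rw [hb]
        exact LE_trans hq1p hpa) M
    have hq2p : LE hl δ q2 p := LE_trans hq21 hq1p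
    obtain ⟨q3, c1, c2, c3, c4, c5⟩ := h3 J X hl γ δ hδ hmax hh p q2 hp hd hq2 hq2p k (by
      rw [hs]
      exact hM.mono hq21 hMk)
    intro m
    obtain ⟨q, e1, e2, e3⟩ := hr'D.2 q3 c1 c4 (by rw [c5, hs]) (c3.le_left.2 hqr') m
    exact ⟨q, e1, LE_trans e2 c2, e3⟩

end Pool.Agent.FS
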