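import Pool.Agent.Lib.MP_e2257e_gt.A.Stmts

/-!
# MP_e2257e_gt : reflection of common extensions to the small order
-/

set_option autoImplicit false

namespace Pool.Agent.FS

namespace Reflx_

variable {J X : Type} [LinearOrder J] [WellFoundedLT J] {hl : J → Prop}

/-- finitely many forced bounds are decided by one extension -/
theorem fin_dec {δ : J} {F : Set (RC J X × List ℕ × ℕ)} (hF : F.Finite) {q : RC J X}
    (hq : V hl δ q) (h : ∀ t ∈ F, Fb hl δ t.1 t.2.1 t.2.2 q) :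
    ∃ q1, V hl δ q1 ∧ LE hl δ q1 q ∧
      ∀ t ∈ F, ∃ i, t.1.bd δ t.2.1 i ≤ t.2.2 ∧ LE hl δ q1 (t.1.nm δ t.2.1 i) := by
  induction F, hF using Set.Finite.induction_on with
  | empty => exact ⟨q, hq, LE_refl hq, fun t ht => absurd ht (Set.notMem_empty _)⟩
  | @insert a F _ _ ih =>
    obtain ⟨q1, h1, h2, h3⟩ := ih fun t ht => h t (Set.mem_insert_of_mem _ ht)
    obtain ⟨r, h4, h5, i, h6, h7⟩ := h a (Set.mem_insert _ _) q1 h1 h2
    refine ⟨r, h4, LE_trans h5 h2, fun t ht => ?_⟩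
    rcases Set.mem_insert_iff.1 ht with rfl | ht
    · exact ⟨i, h6, h7⟩
    · obtain ⟨i', h8, h9⟩ := h3 t ht
      exact ⟨i', h8, LE_trans h5 h9⟩

end Reflx_

open Reflx_

theorem refl_proof (hmx : S_max) : S_refl := by
  intro J X _ _ hl γ ih E A hA hAE q hq hqA
  set a0 := pureT E q with ha0
  have va0 : V hl γ a0 := V_pureT hq E
  have ea0 : HE E a0 := HE_pureT E q
  have qa0 : LE hl γ q a0 := le_pureT hq E
  have hAV : ∀ a ∈ A, V hl γ a := fun a ha => (hAE ha).1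
  have hAH : ∀ a ∈ A, HE E a := fun a ha => (hAE ha).2
  -- the levels
  have hSf : {δ | δ < γ ∧ ∃ a ∈ A, δ ∈ a.dom}.Finite := by
    refine (hA.biUnion fun a _ => (a.dom.finite_toSet)).subset ?_
    rintro δ ⟨_, a, ha, hδ⟩
    exact Set.mem_biUnion ha hδ
  rcases Set.eq_empty_or_nonempty {δ | δ < γ ∧ ∃ a ∈ A, δ ∈ a.dom} with hS | hS
  · refine ⟨a0, ⟨va0, ea0⟩, fun a ha => ?_⟩
    have hqa := hqA a ha
    have hE := (HE_iff.1 (hAH a ha)).1
    rw [LE_iff]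
    refine ⟨⟨hqa.ht, fun x j hx hj => ⟨mem_pureT_tw.2 ⟨hqa.tw hx hj, hE x j hx⟩,
      fun k hk => hqa.el hx hj hk, fun j' hj' hx' k hk hk' => hqa.coh hx hj hj' hx' hk hk'⟩⟩,
      fun δ hδ hj => ?_⟩
    have : δ ∈ {δ | δ < γ ∧ ∃ a ∈ A, δ ∈ a.dom} := ⟨hj, a, ha, hδ⟩
    rw [hS] at this
    exact absurd this (Set.notMem_empty _)
  · obtain ⟨δ, hδS, hmax⟩ := Set.exists_max_image _ id hSf hS
    obtain ⟨hδγ, b, hb, hδb⟩ := hδS
    have hlδ : hl δ := (hAV b hb).hlv hδb hδγ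
    obtain ⟨iccc, irefl, ihit⟩ := ih δ hδγ E
    have ihn : Hit hl E δ none := ihit none fun x α h => by cases h
    set s := q.stem δ with hs
    set A1 : Set (RC J X) := {a | a ∈ A ∧ δ ∈ a.dom} with hA1
    have hA1f : A1.Finite := hA.subset fun a ha => ha.1
    -- the finitely many bounds
    set F : Set (RC J X × List ℕ × ℕ) := {t | ∃ a ∈ A1, ∃ n, (a.stem δ).length ≤ n ∧
      n < s.length ∧ t = (a, s.take n, s.getD n 0)} with hF
    have hFf : F.Finite := by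
      refine ((hA1f.prod (Finset.range s.length).finite_toSet).image
        fun t : RC J X × ℕ => (t.1, s.take t.2, s.getD t.2 0)).subset ?_
      rintro t ⟨a, ha, n, _, hn, rfl⟩
      exact ⟨(a, n), ⟨ha, Finset.mem_coe.2 (Finset.mem_range.2 hn)⟩, rfl⟩
    have hFb : ∀ t ∈ F, Fb hl δ t.1 t.2.1 t.2.2 q := by
      rintro t ⟨a, ha, n, hn1, hn2, rfl⟩
      exact ((hqA a ha.1).hle ha.2 hδγ).2.2.1 n hn1 hn2
    obtain ⟨q1, hq1, hq1q, hdec⟩ := fin_dec hFf (V_mono hδγ.le hq) hFb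
    choose! I hI1 hI2 using hdec
    -- reflection below the level
    obtain ⟨q2, hq2, hq2A⟩ := irefl
      (A ∪ {a0} ∪ (fun t : RC J X × List ℕ × ℕ => t.1.nm δ t.2.1 (I t)) '' F)
      ((hA.union (Set.finite_singleton _)).union (hFf.image _)) (by
        rintro x ((hx | hx) | ⟨t, ⟨a, ha, n, hn1, hn2, rfl⟩, rfl⟩)
        · exact ⟨V_mono hδγ.le (hAV x hx), hAH x hx⟩
        · rw [Set.mem_singleton_iff.1 hx]
          exact ⟨V_mono hδγ.le va0, ea0⟩
        · exact ⟨(hAV a ha.1).nm ha.2 hδγ _ _, (HE_iff.1 (hAH a ha.1)).2 δ ha.2 _ _⟩)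
      q1 hq1 (by
        rintro x ((hx | hx) | ⟨t, ht, rfl⟩)
        · exact LE_trans hq1q (LE_mono hδγ.le (hqA x hx))
        · rw [Set.mem_singleton_iff.1 hx]
          exact LE_trans hq1q (LE_mono hδγ.le qa0)
        · exact hI2 t ht)
    have q2A : ∀ a ∈ A, LE hl δ q2 a := fun a ha => hq2A a (Or.inl (Or.inl ha))
    have q2a0 : LE hl δ q2 a0 := hq2A a0 (Or.inl (Or.inr rfl))
    have q2F : ∀ t ∈ F, LE hl δ q2 (t.1.nm δ t.2.1 (I t)) := fun t ht =>
      hq2A _ (Or.inr ⟨t, ht, rfl⟩)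
    -- the maximum of the names
    obtain ⟨ν, β, hν1, hν2, hν3⟩ := hmx J X hl E δ iccc irefl ihn A1 hA1f fun a ha =>
      ⟨(hAV a ha.1).tot ha.2 hδγ, fun u i => (HE_iff.1 (hAH a ha.1)).2 δ ha.2 u i⟩
    have vg : V hl γ (glue q2 a0 δ) := V_glue hq2.1 va0 q2a0.ht
    refine ⟨setH (glue q2 a0 δ) δ s ν β, ⟨V_setH vg hlδ hν2,
      HE_setH (HE_glue hq2.2 ea0 δ) hν1⟩, fun a ha => ?_⟩
    have hqa := hqA a ha
    have hE := (HE_iff.1 (hAH a ha)).1
    have hbelow : ∀ x, LE hl δ q2 x → LE hl δ (setH (glue q2 a0 δ) δ s ν β) x := fun x hx =>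
      (setH_agr (glue q2 a0 δ) δ s ν β).le_left.2 ((glue_agr q2 a0 δ).le_left.2 hx)
    refine LE_of_parts (hbelow a (q2A a ha)) ⟨(q2A a ha).ht, fun x j hx hj => ?_⟩
      fun ε hε h1 h2 => ?_
    · have hxE := hE x j hx
      have hxq := hqa.tw hx hj
      rcases lt_or_ge j δ with hjδ | hjδ
      · refine ⟨mem_glue_tw.2 (Or.inl ⟨(q2A a ha).tw hx hjδ, hjδ⟩), fun k hk => ?_,
          fun j' hj' hx' k hk hk' => ?_⟩
        · rw [setH_el, glue_el, if_pos hjδ]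
          exact (q2A a ha).el hx hjδ hk
        · rw [setH_el, glue_el, if_pos hjδ] at hk
          rw [setH_el, glue_el, if_pos (hj'.trans hjδ)]
          exact (q2A a ha).coh hx hjδ hj' hx' hk hk'
      · refine ⟨mem_glue_tw.2 (Or.inr ⟨mem_pureT_tw.2 ⟨hxq, hxE⟩, hjδ⟩), fun k hk => ?_,
          fun j' hj' hx' k hk hk' => ?_⟩
        · rw [setH_el, glue_el, if_neg (not_lt.2 hjδ)]
          exact hqa.el hx hj hk
        · rw [setH_el, glue_el, if_neg (not_lt.2 hjδ)] at hk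
          have hk2 : k ∈ q.el x j := hk
          have hk3 : k ∈ q.el x j' := hqa.coh hx hj hj' hx' hk2 hk'
          rw [setH_el, glue_el]
          rcases lt_or_ge j' δ with hjδ' | hjδ'
          · rw [if_pos hjδ']
            have h3 : (x, j') ∈ a0.tw :=
              mem_pureT_tw.2 ⟨hqa.tw hx' (hj'.trans hj), hE x j' hx'⟩
            have h4 : k < a0.ht := hq.el hxq hj hk2
            exact (q2a0.el h3 hjδ' h4).2 hk3
          · rw [if_neg (not_lt.2 hjδ')]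
            exact hk3
    · have hεδ : ε = δ := le_antisymm (hmax ε ⟨h2, a, ha, hε⟩) h1
      subst hεδ
      have ha1 : a ∈ A1 := ⟨ha, hε⟩
      have hh := hqa.hle hε h2
      refine ⟨mem_setH_dom.2 (Or.inl rfl), ?_, fun n hn1 hn2 => ?_, ?_⟩
      · rw [setH_stem]
        exact hh.2.1
      · rw [setH_stem] at hn2 ⊢
        have ht : (a, s.take n, s.getD n 0) ∈ F := ⟨a, ha1, n, hn1, hn2, rfl⟩
        exact Fb.of (hI1 _ ht) (hbelow _ (q2F _ ht))
      · rintro u m r _ _ _ ⟨i, hi1, hi2⟩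
        rw [setH_bd] at hi1
        rw [setH_nm] at hi2
        obtain ⟨i', h3, h4⟩ := hν3 u i a ha1
        exact Fb.of (h3.trans hi1) (LE_trans hi2 h4)

end Pool.Agent.FS
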