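import Pool.Agent.Lib.MP_e2257e_gt.A.Stmts

/-!
# MP_e2257e_gt : piece A6 (the relative version)
-/

set_option autoImplicit false

namespace Pool.Agent.FS

theorem rel_proof : S_rel := by
  intro J X _ _ hl γ E tgt hr hh B hBf hB D hD p hp hpb
  have h1 : EInf hl E γ ∅ (fun k => D k ∪
      {d | d ∈ HV hl E γ ∧ ∀ r ∈ HV hl E γ, LE hl γ r d → ¬ ∀ b ∈ B, LE hl γ r b}) := by
    intro r hr1 _ m
    by_cases hx : ∃ r1 ∈ HV hl E γ, LE hl γ r1 r ∧ ∀ b ∈ B, LE hl γ r1 b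
    · obtain ⟨r1, a1, a2, a3⟩ := hx
      obtain ⟨r', b1, b2, k, b3, b4⟩ := hD r1 a1 a3 m
      exact ⟨r', b1, LE_trans b2 a2, k, b3, Or.inl b4⟩
    · refine ⟨r, hr1, LE_refl hr1.1, m, le_rfl, Or.inr ⟨hr1, ?_⟩⟩
      intro r1 a1 a2 a3
      exact hx ⟨r1, a1, a2, a3⟩
  intro m
  obtain ⟨q, q1, q2, k, hk, hg, d, hd1, hd2, hd3⟩ := hh _ h1 p hp m
  rcases hd2 with hd2 | hd2
  · exact ⟨q, q1, q2, k, hk, hg, d, hd1, hd2, hd3⟩
  · exfalso
    obtain ⟨q', c1, c2⟩ := hr (insert d B) (hBf.insert d)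
      (by
        rintro x (rfl | hx)
        exacts [hd1, hB hx]) q q1
      (by
        rintro x (rfl | hx)
        exacts [hd3, LE_trans q2 (hpb x hx)])
    exact hd2.2 q' c1 (c2 d (Or.inl rfl)) fun b hb => c2 b (Or.inr hb)

end Pool.Agent.FS
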