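import Pool.Agent.Lib.MP_e2257e_gt.A.Stmts

/-!
# MP_e2257e_gt : the successor step at a tower level (A8)
-/

set_option autoImplicit false

namespace Pool.Agent.FS

namespace Tow_

variable {J X : Type} [LinearOrder J] [WellFoundedLT J] {hl : J → Prop}

/-- the target for the level `α` -/
theorem tgt_exists {E : Set X} {α : J} {tgt : Option (X × J)} (hok : OkT hl E tgt) (p : RC J X)
    (hp : V hl α p) : ∃ tgt' : Option (X × J), OkT hl E tgt' ∧ ∀ (q : RC J X) (k : ℕ),
      LE hl α q p → p.ht ≤ k → Got α tgt' q k →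
        (∀ x j, tgt = some (x, j) → j < α → (x, j) ∈ q.tw ∧ k ∈ q.el x j) ∧
        ∀ x, tgt = some (x, α) → ∀ j' < α, (x, j') ∈ p.tw → k ∈ q.el x j' := by
  classical
  rcases tgt with _ | ⟨x0, j0⟩
  · exact ⟨none, hok, fun q k _ _ _ => ⟨fun x j h => (by cases h), fun x h => (by cases h)⟩⟩
  by_cases hj : j0 = α
  · subst hj
    have hx0 : x0 ∉ E := (hok x0 j0 rfl).1
    set S : Finset J := (p.tw.filter (fun t => t.1 = x0 ∧ t.2 < j0)).image Prod.snd with hS
    have hmem : ∀ j, j ∈ S ↔ (x0, j) ∈ p.tw ∧ j < j0 := by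
      intro j
      simp only [hS, Finset.mem_image, Finset.mem_filter]
      constructor
      · rintro ⟨⟨y, i⟩, ⟨h1, h2, h3⟩, h4⟩
        simp only at h2 h3 h4
        subst h2 h4
        exact ⟨h1, h3⟩
      · rintro ⟨h1, h2⟩
        exact ⟨(x0, j), ⟨h1, rfl, h2⟩, rfl⟩
    by_cases hne : S.Nonempty
    · refine ⟨some (x0, S.max' hne), ?_, ?_⟩
      · intro x a h
        obtain ⟨rfl, rfl⟩ := Prod.mk.inj (Option.some.inj h)
        have := (hmem _).1 (S.max'_mem hne)
        exact ⟨hx0, hp.tl this.1 this.2⟩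
      · intro q k hq hk hg
        refine ⟨fun x j h hj => ?_, fun x h j' hj' hx => ?_⟩
        · obtain ⟨rfl, rfl⟩ := Prod.mk.inj (Option.some.inj h)
          exact absurd hj (lt_irrefl _)
        · obtain ⟨rfl, _⟩ := Prod.mk.inj (Option.some.inj h)
          have hb := (hmem _).1 (S.max'_mem hne)
          have hg' := hg x0 (S.max' hne) rfl hb.2
          have hle : j' ≤ S.max' hne := S.le_max' _ ((hmem _).2 ⟨hx, hj'⟩)
          rcases hle.eq_or_lt with he | hlt
          · rw [he]; exact hg'.2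
          · exact hq.coh hb.1 hb.2 hlt hx hg'.2 hk
    · refine ⟨none, fun x a h => by (cases h), fun q k hq hk hg => ⟨fun x j h hj => ?_,
        fun x h j' hj' hx => ?_⟩⟩
      · obtain ⟨rfl, rfl⟩ := Prod.mk.inj (Option.some.inj h)
        exact absurd hj (lt_irrefl _)
      · obtain ⟨rfl, _⟩ := Prod.mk.inj (Option.some.inj h)
        exact absurd ⟨j', (hmem _).2 ⟨hx, hj'⟩⟩ hne
  · refine ⟨some (x0, j0), hok, fun q k hq hk hg => ⟨fun x j h hj => ?_, fun x h => ?_⟩⟩
    · exact hg x j h hj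
    · obtain ⟨_, h2⟩ := Prod.mk.inj (Option.some.inj h)
      exact absurd h2 hj

open Classical in
/-- the rows at the level `α` -/
noncomputable def rows (E : Set X) (α : J) (d p : RC J X) : Finset X :=
  (d.tw.filter (fun t => t.2 = α ∧ t.1 ∈ E)).image Prod.fst ∪
    (p.tw.filter (fun t => t.2 = α ∧ t.1 ∉ E)).image Prod.fst

omit [WellFoundedLT J] in
theorem mem_rows {E : Set X} {α : J} {d p : RC J X} {x : X} : x ∈ rows E α d p ↔
    ((x, α) ∈ d.tw ∧ x ∈ E) ∨ ((x, α) ∈ p.tw ∧ x ∉ E) := by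
  classical
  simp only [rows, Finset.mem_union, Finset.mem_image, Finset.mem_filter]
  constructor
  · rintro (⟨⟨y, i⟩, ⟨h1, h2, h3⟩, h4⟩ | ⟨⟨y, i⟩, ⟨h1, h2, h3⟩, h4⟩)
    · simp only at h2 h3 h4
      subst h2 h4
      exact Or.inl ⟨h1, h3⟩
    · simp only at h2 h3 h4
      subst h2 h4
      exact Or.inr ⟨h1, h3⟩
  · rintro (⟨h1, h2⟩ | ⟨h1, h2⟩)
    · exact Or.inl ⟨(x, α), ⟨h1, rfl, h2⟩, rfl⟩
    · exact Or.inr ⟨(x, α), ⟨h1, rfl, h2⟩, rfl⟩

open Classical in
/-- the sets at the level `α` -/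
noncomputable def sets (E : Set X) (α : J) (d p : RC J X) (tgt : Option (X × J)) (k : ℕ) (x : X) :
    Finset ℕ :=
  (if x ∈ E then d.el x α else p.el x α) ∪ (if tgt = some (x, α) then {k} else ∅)

omit [WellFoundedLT J] in
theorem mem_sets {E : Set X} {α : J} {d p : RC J X} {tgt : Option (X × J)} {k : ℕ} {x : X} {i : ℕ} :
    i ∈ sets E α d p tgt k x ↔ (x ∈ E ∧ i ∈ d.el x α) ∨ (x ∉ E ∧ i ∈ p.el x α) ∨
      (tgt = some (x, α) ∧ i = k) := by
  classical
  unfold sets
  by_cases h1 : x ∈ E <;> by_cases h2 : tgt = some (x, α) <;> simp [h1, h2, or_comm]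

/-- the main case -/
theorem main (h : S_rel) {γ α : J} (hαγ : α < γ) (hmax : ∀ j < γ, j ≤ α) (hα : ¬ hl α)
    (ih : IH (X := X) hl α) {E : Set X} {tgt : Option (X × J)} (hok : OkT hl E tgt)
    {D : ℕ → Set (RC J X)} (hD : EInf hl E γ ∅ D) {p : RC J X} (hp : V hl γ p)
    (htg : ∀ x, tgt = some (x, α) → (x, α) ∈ p.tw) : Concl hl E γ tgt D p := by
  intro m
  have hpα : V hl α p := V_mono hαγ.le hp
  obtain ⟨tgt', hok', htgt'⟩ := tgt_exists hok p hpα
  obtain ⟨-, hrefl, hhit⟩ := ih E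
  have hB := h J X hl α E tgt' hrefl (hhit tgt' hok')
  have hapV : ∀ γ' ≤ γ, V hl γ' (pureT E p) := fun γ' hg => V_pureT (V_mono hg hp) E
  have hap : pureT E p ∈ HV hl E γ := ⟨hapV γ le_rfl, HE_pureT E p⟩
  have hEI : EInf hl E α {pureT E p} (fun k => {r | r ∈ HV hl E α ∧ ∃ d ∈ HV hl E γ, d ∈ D k ∧
      LE hl γ d (pureT E p) ∧ LE hl α r d}) := by
    intro r hr hrb m'
    have hrap : LE hl α r (pureT E p) := hrb _ rfl
    have hr1 : glue r (pureT E p) α ∈ HV hl E γ :=
      ⟨V_glue hr.1 hap.1 hrap.ht, HE_glue hr.2 hap.2 α⟩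
    obtain ⟨r', hr', hle, k, hk, hrk⟩ := hD _ hr1 (fun b hb => absurd hb (Set.notMem_empty _)) m'
    have hr'α : V hl α r' := V_mono hαγ.le hr'.1
    refine ⟨r', ⟨hr'α, hr'.2⟩, (glue_agr r _ α).le_right.1 (LE_mono hαγ.le hle), k, hk,
      ⟨hr'α, hr'.2⟩, r', hr', hrk, LE_trans hle (glue_le hrap hap.1), LE_refl hr'α⟩
  obtain ⟨q, hqV, hqp, k, hk, hgot, d', hd', ⟨-, d, hd, hdk, hdap, hd'd⟩, hqd'⟩ :=
    hB {pureT E p} (Set.finite_singleton _)
    (by
      intro b hb
      rw [Set.mem_singleton_iff] at hb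
      subst hb
      exact ⟨hapV α hαγ.le, HE_pureT E p⟩) _ hEI p hpα
    (by
      intro b hb
      rw [Set.mem_singleton_iff] at hb
      subst hb
      exact le_pureT hpα E) (max m p.ht)
  have hqd : LE hl α q d := LE_trans hqd' hd'd
  have hpk : p.ht ≤ k := (le_max_right _ _).trans hk
  obtain ⟨ht1, ht2⟩ := htgt' q k hqp hpk hgot
  have hdE : ∀ x j, (x, j) ∈ d.tw → x ∈ E := (HE_iff.1 hd.2).1
  set n : ℕ := k + 1 with hn
  set q0 : RC J X := raise (cut α q) n with hq0
  set q1 : RC J X := setT q0 α (rows E α d p) (sets E α d p tgt k) with hq1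
  have hq1ht : q1.ht = max q.ht n := rfl
  have hq1tw : ∀ x, ∀ j < α, (x, j) ∈ q1.tw ↔ (x, j) ∈ q.tw := by
    intro x j hj
    rw [hq1, mem_setT_tw, hq0, raise_tw, mem_cut_tw]
    constructor
    · rintro (⟨h1, _⟩ | ⟨_, h1⟩)
      · exact h1.1
      · exact absurd h1 hj.ne
    · intro h1
      exact Or.inl ⟨⟨h1, hj⟩, hj.ne⟩
  have hq1twα : ∀ x, (x, α) ∈ q1.tw ↔ x ∈ rows E α d p := by
    intro x
    rw [hq1, mem_setT_tw]
    constructor
    · rintro (⟨_, h1⟩ | ⟨h1, _⟩)
      · exact absurd rfl h1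
      · exact h1
    · intro h1
      exact Or.inr ⟨h1, rfl⟩
  have hq1el : ∀ x, ∀ j < α, q1.el x j = q.el x j := by
    intro x j hj
    rw [hq1, setT_el, if_neg hj.ne]
    rfl
  have hq1elα : ∀ x, q1.el x α = sets E α d p tgt k x := by
    intro x
    rw [hq1, setT_el, if_pos rfl]
  have hcut : V hl γ (cut α q) := V_cut hqV γ
  have hq0V : V hl γ q0 := V_raise hcut n
  have hdht : d.ht ≤ q.ht := hqd.ht
  have hpht : p.ht ≤ q.ht := hqp.ht
  have hq1V : V hl γ q1 := by
    refine V_setT hq0V hα fun x hx i hi => ?_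
    have hq0ht : q0.ht = max q.ht n := rfl
    rw [hq0ht]
    rcases mem_sets.1 hi with ⟨h1, h2⟩ | ⟨h1, h2⟩ | ⟨h1, h2⟩
    · rcases mem_rows.1 hx with h3 | h3
      · exact ((hd.1.el h3.1 hαγ h2).trans_le hdht).trans_le (le_max_left _ _)
      · exact absurd h1 h3.2
    · rcases mem_rows.1 hx with h3 | h3
      · exact absurd h3.2 h1
      · exact ((hp.el h3.1 hαγ h2).trans_le hpht).trans_le (le_max_left _ _)
    · rw [h2]
      exact (Nat.lt_succ_self k).trans_le (le_max_right _ _)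
  have hq1q : LE hl α q1 q := by
    have h1 : LE hl α q1 q0 := (setT_agr q0 α _ _).le (V_mono hαγ.le hq0V)
    have h2 : LE hl α q0 (cut α q) := raise_le (V_cut hqV α) n
    exact (cut_agr α q).le_right.1 (LE_trans h1 h2)
  have hq1d : LE hl α q1 d := LE_trans hq1q hqd
  have hq1p : LE hl α q1 p := LE_trans hq1q hqp
  have hHd : ∀ r : RC J X, V hl γ r → ∀ ε ∈ r.dom, α ≤ ε → ε < γ → HLE hl ε q1 r := by
    intro r hr ε hε h1 h2
    have he : ε = α := le_antisymm (hmax ε h2) h1
    subst he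
    exact absurd (hr.hlv hε h2) hα
  have hled : LE hl γ q1 d := by
    refine LE_of_parts hq1d ⟨hq1d.ht, fun x j hx hj => ?_⟩ (hHd d hd.1)
    rcases (hmax j hj).lt_or_eq with hlt | he
    · exact hq1d.tle.2 x j hx hlt
    · subst he
      have hxE := hdE x j hx
      have hmem : ∀ i, i ∈ q1.el x j ↔ i ∈ d.el x j := by
        intro i
        rw [hq1elα, mem_sets]
        constructor
        · rintro (h1 | h1 | h1)
          · exact h1.2
          · exact absurd hxE h1.1
          · exact absurd hxE (hok x j h1.1).1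
        · intro h1
          exact Or.inl ⟨hxE, h1⟩
      refine ⟨(hq1twα x).2 (mem_rows.2 (Or.inl ⟨hx, hxE⟩)), fun i _ => hmem i,
        fun j' hj' hx' i hi hi' => ?_⟩
      exact absurd (hd.1.el hx hj ((hmem i).1 hi)) (not_lt.2 hi')
  have hlep : LE hl γ q1 p := by
    refine LE_of_parts hq1p ⟨hq1p.ht, fun x j hx hj => ?_⟩ (hHd p hp)
    rcases (hmax j hj).lt_or_eq with hlt | he
    · exact hq1p.tle.2 x j hx hlt
    · subst he
      by_cases hxE : x ∈ E
      · have hxa : (x, j) ∈ (pureT E p).tw := mem_pureT_tw.2 ⟨hx, hxE⟩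
        have hxd : (x, j) ∈ d.tw := hdap.tw hxa hj
        have hmem : ∀ i, i ∈ q1.el x j ↔ i ∈ d.el x j := by
          intro i
          rw [hq1elα, mem_sets]
          constructor
          · rintro (h1 | h1 | h1)
            · exact h1.2
            · exact absurd hxE h1.1
            · exact absurd hxE (hok x j h1.1).1
          · intro h1
            exact Or.inl ⟨hxE, h1⟩
        refine ⟨(hq1twα x).2 (mem_rows.2 (Or.inl ⟨hxd, hxE⟩)), fun i hi => ?_,
          fun j' hj' hx' i hi hi' => ?_⟩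
        · rw [hmem]
          exact hdap.el hxa hj (by simpa using hi)
        · have h1 := (hmem i).1 hi
          have hxa' : (x, j') ∈ (pureT E p).tw := mem_pureT_tw.2 ⟨hx', hxE⟩
          have h2 := hdap.coh hxa hj hj' hxa' h1 (by simpa using hi')
          have hxd' : (x, j') ∈ d.tw := hdap.tw hxa' (hj'.trans hj)
          have h3 : i < d.ht := hd.1.el hxd hj h1
          rw [hq1el x j' hj']
          exact (hqd.el hxd' hj' h3).2 h2
      · have hmem : ∀ i, i ∈ q1.el x j ↔ i ∈ p.el x j ∨ (tgt = some (x, j) ∧ i = k) := by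
          intro i
          rw [hq1elα, mem_sets]
          constructor
          · rintro (h1 | h1 | h1)
            · exact absurd h1.1 hxE
            · exact Or.inl h1.2
            · exact Or.inr h1
          · rintro (h1 | h1)
            · exact Or.inr (Or.inl ⟨hxE, h1⟩)
            · exact Or.inr (Or.inr h1)
        refine ⟨(hq1twα x).2 (mem_rows.2 (Or.inr ⟨hx, hxE⟩)), fun i hi => ?_,
          fun j' hj' hx' i hi hi' => ?_⟩
        · rw [hmem]
          constructor
          · rintro (h1 | ⟨_, h1⟩)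
            · exact h1
            · subst h1
              exact absurd hi (not_lt.2 hpk)
          · exact Or.inl
        · rcases (hmem i).1 hi with h1 | ⟨h1, h2⟩
          · exact absurd (hp.el hx hj h1) (not_lt.2 hi')
          · subst h2
            rw [hq1el x j' hj']
            exact ht2 x h1 j' hj' hx'
  refine ⟨q1, hq1V, hlep, k, (le_max_left _ _).trans hk, ?_, d, hd, hdk, hled⟩
  intro x j hxj hj
  rcases (hmax j hj).lt_or_eq with hlt | he
  · obtain ⟨h1, h2⟩ := ht1 x j hxj hlt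
    rw [hq1el x j hlt]
    exact ⟨(hq1tw x j hlt).2 h1, h2⟩
  · subst he
    refine ⟨(hq1twα x).2 (mem_rows.2 (Or.inr ⟨htg x hxj, (hok x j hxj).1⟩)), ?_⟩
    rw [hq1elα, mem_sets]
    exact Or.inr (Or.inr ⟨hxj, rfl⟩)

end Tow_

/-- (A8) the successor step at a tower level -/
theorem tow_proof (h : S_rel) : S_tow := by
  intro J X _ _ hl γ α hαγ hmax hα ih E tgt hok D hD p hp
  classical
  by_cases ht : ∃ x0, tgt = some (x0, α) ∧ (x0, α) ∉ p.tw
  · obtain ⟨x0, htx, hx0⟩ := ht
    set R : Finset X := insert x0 ((p.tw.filter (fun t => t.2 = α)).image Prod.fst) with hR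
    have hRm : ∀ x, x ∈ R ↔ x = x0 ∨ (x, α) ∈ p.tw := by
      intro x
      simp only [hR, Finset.mem_insert, Finset.mem_image, Finset.mem_filter]
      constructor
      · rintro (h1 | ⟨⟨y, i⟩, ⟨h1, h2⟩, h3⟩)
        · exact Or.inl h1
        · simp only at h2 h3
          subst h2 h3
          exact Or.inr h1
      · rintro (h1 | h1)
        · exact Or.inl h1
        · exact Or.inr ⟨(x, α), ⟨h1, rfl⟩, rfl⟩
    set p' : RC J X := setT p α R (fun x => if (x, α) ∈ p.tw then p.el x α else ∅) with hp'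
    have hV : V hl γ p' := by
      refine V_setT hp hα fun x hx i hi => ?_
      by_cases h1 : (x, α) ∈ p.tw
      · rw [if_pos h1] at hi
        exact hp.el h1 hαγ hi
      · rw [if_neg h1] at hi
        exact absurd hi (Finset.notMem_empty _)
    have hle : LE hl γ p' p := by
      rw [LE_iff]
      refine ⟨⟨le_rfl, fun x j hx hj => ?_⟩, fun δ hδ hj => HLE.same hδ rfl rfl rfl⟩
      have hel : p'.el x j = p.el x j := by
        rw [hp', setT_el]
        by_cases h1 : j = α
        · subst h1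
          rw [if_pos rfl, if_pos hx]
        · rw [if_neg h1]
      refine ⟨?_, fun i _ => by rw [hel], fun j' hj' hx' i hi hi' => ?_⟩
      · rw [hp', mem_setT_tw]
        by_cases h1 : j = α
        · subst h1
          exact Or.inr ⟨(hRm x).2 (Or.inr hx), rfl⟩
        · exact Or.inl ⟨hx, h1⟩
      · rw [hel] at hi
        exact absurd (hp.el hx hj hi) (not_lt.2 hi')
    have hc := Tow_.main h hαγ hmax hα ih hok hD hV (fun x hx => by
      rw [htx] at hx
      obtain ⟨h1, _⟩ := Prod.mk.inj (Option.some.inj hx)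
      subst h1
      rw [hp', mem_setT_tw]
      exact Or.inr ⟨(hRm _).2 (Or.inl rfl), rfl⟩)
    intro m
    obtain ⟨q, h1, h2, h3⟩ := hc m
    exact ⟨q, h1, LE_trans h2 hle, h3⟩
  · push Not at ht
    exact Tow_.main h hαγ hmax hα ih hok hD hp ht

end Pool.Agent.FS
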