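import Pool.Agent.Lib.MP_e2257e_gt.A.Fn
import Pool.Agent.Lib.MP_e2257e_gt.A.Name
import Pool.Agent.Lib.MP_e2257e_gt.A.Max
import Pool.Agent.Lib.MP_e2257e_gt.A.Cccs
import Pool.Agent.Lib.MP_e2257e_gt.A.Reflx
import Pool.Agent.Lib.MP_e2257e_gt.A.Rel
import Pool.Agent.Lib.MP_e2257e_gt.A.Lim
import Pool.Agent.Lib.MP_e2257e_gt.A.Tow
import Pool.Agent.Lib.MP_e2257e_gt.A.Key
import Pool.Agent.Lib.MP_e2257e_gt.A.Comb
import Pool.Agent.Lib.MP_e2257e_gt.A.Ext
import Pool.Agent.Lib.MP_e2257e_gt.A.Inner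
import Pool.Agent.Lib.MP_e2257e_gt.A.Outer
import Pool.Agent.Lib.MP_e2257e_gt.A.Hech

/-!
# MP_e2257e_gt : the iteration (block A assembled)
-/

set_option autoImplicit false

namespace Pool.Agent.FS

/-- the inductive statement holds at every level -/
theorem all_IH {J X : Type} [LinearOrder J] [WellFoundedLT J] (hl : J → Prop) (γ : J) :
    IH (X := X) hl γ := by
  have hmax := max_proof name_proof
  have hcomb := comb_proof hmax
  have hinner := inner_proof rel_proof hcomb ext_proof
  exact ih_all (ccc_proof fn_proof hmax) (refl_proof hmax) lim_proof (tow_proof rel_proof)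
    (hech_proof (key_proof name_proof) (outer_proof rel_proof hcomb ext_proof hinner)) hl γ

end Pool.Agent.FS
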