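import Pool.Agent.Lib.MP_e2257e_gt.A.Defs

/-!
# MP_e2257e_gt : the iteration (basic facts)
-/

set_option autoImplicit false

namespace Pool.Agent.FS

variable {J X : Type} [LinearOrder J] [WellFoundedLT J] {hl : J → Prop}

/-! ### order -/

theorem V_mono {γ γ' : J} (h : γ' ≤ γ) {p : RC J X} (hp : V hl γ p) : V hl γ' p := by
  rw [V_iff] at hp ⊢
  exact ⟨fun x j hx hj => hp.1 x j hx (hj.trans_le h), fun δ hδ hj => hp.2 δ hδ (hj.trans_le h)⟩

omit [WellFoundedLT J] in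
theorem TLE_mono {γ γ' : J} (h : γ' ≤ γ) {p q : RC J X} (hp : TLE γ p q) : TLE γ' p q :=
  ⟨hp.1, fun x j hx hj => hp.2 x j hx (hj.trans_le h)⟩

theorem LE_mono {γ γ' : J} (h : γ' ≤ γ) {p q : RC J X} (hp : LE hl γ p q) : LE hl γ' p q := by
  rw [LE_iff] at hp ⊢
  exact ⟨TLE_mono h hp.1, fun δ hδ hj => hp.2 δ hδ (hj.trans_le h)⟩

theorem LE.ht {γ : J} {p q : RC J X} (h : LE hl γ p q) : q.ht ≤ p.ht := (LE_iff hl |>.1 h).1.1

theorem LE.tle {γ : J} {p q : RC J X} (h : LE hl γ p q) : TLE γ p q := (LE_iff hl |>.1 h).1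

theorem LE.hle {γ δ : J} {p q : RC J X} (h : LE hl γ p q) (hδ : δ ∈ q.dom) (hj : δ < γ) :
    HLE hl δ p q := (LE_iff hl |>.1 h).2 δ hδ hj

theorem LE.tw {γ : J} {p q : RC J X} (h : LE hl γ p q) {x : X} {j : J} (hx : (x, j) ∈ q.tw)
    (hj : j < γ) : (x, j) ∈ p.tw := (h.tle.2 x j hx hj).1

theorem LE.el {γ : J} {p q : RC J X} (h : LE hl γ p q) {x : X} {j : J} (hx : (x, j) ∈ q.tw)
    (hj : j < γ) {k : ℕ} (hk : k < q.ht) : k ∈ p.el x j ↔ k ∈ q.el x j :=
  (h.tle.2 x j hx hj).2.1 k hk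

theorem LE.coh {γ : J} {p q : RC J X} (h : LE hl γ p q) {x : X} {j j' : J} (hx : (x, j) ∈ q.tw)
    (hj : j < γ) (hjj : j' < j) (hx' : (x, j') ∈ q.tw) {k : ℕ} (hk : k ∈ p.el x j)
    (hk' : q.ht ≤ k) : k ∈ p.el x j' :=
  (h.tle.2 x j hx hj).2.2 j' hjj hx' k hk hk'

theorem V.el {γ : J} {p : RC J X} (h : V hl γ p) {x : X} {j : J} (hx : (x, j) ∈ p.tw)
    (hj : j < γ) {k : ℕ} (hk : k ∈ p.el x j) : k < p.ht := ((V_iff hl |>.1 h).1 x j hx hj).2 k hk

theorem V.tl {γ : J} {p : RC J X} (h : V hl γ p) {x : X} {j : J} (hx : (x, j) ∈ p.tw)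
    (hj : j < γ) : ¬ hl j := ((V_iff hl |>.1 h).1 x j hx hj).1

theorem V.hlv {γ δ : J} {p : RC J X} (h : V hl γ p) (hδ : δ ∈ p.dom) (hj : δ < γ) : hl δ :=
  ((V_iff hl |>.1 h).2 δ hδ hj).1

theorem V.tot {γ δ : J} {p : RC J X} (h : V hl γ p) (hδ : δ ∈ p.dom) (hj : δ < γ) :
    Tot hl δ p := ((V_iff hl |>.1 h).2 δ hδ hj).2

theorem V.nm {γ δ : J} {p : RC J X} (h : V hl γ p) (hδ : δ ∈ p.dom) (hj : δ < γ) (u : List ℕ)
    (i : ℕ) : V hl δ (p.nm δ u i) := (h.tot hδ hj u).1 i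

omit [WellFoundedLT J] in
theorem TLE_trans {γ : J} {p q r : RC J X} (h : TLE γ p q) (h' : TLE γ q r) : TLE γ p r := by
  refine ⟨h'.1.trans h.1, fun x j hx hj => ?_⟩
  obtain ⟨a1, a2, a3⟩ := h'.2 x j hx hj
  obtain ⟨b1, b2, b3⟩ := h.2 x j a1 hj
  refine ⟨b1, fun k hk => (b2 k (hk.trans_le h'.1)).trans (a2 k hk), fun j' hj' hx' k hk hk' => ?_⟩
  have hx'' := (h'.2 x j' hx' (hj'.trans hj)).1
  rcases lt_or_ge k q.ht with hq | hq
  · have h1 := a3 j' hj' hx' k ((b2 k hq).1 hk) hk'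
    exact ((h.2 x j' hx'' (hj'.trans hj)).2.1 k hq).2 h1
  · exact b3 j' hj' hx'' k hk hq

theorem Fb_mono {δ : J} {q : RC J X} {u : List ℕ} {m : ℕ} {p r : RC J X}
    (ht : ∀ a b c : RC J X, LE hl δ a b → LE hl δ b c → LE hl δ a c)
    (h : Fb hl δ q u m p) (hr : LE hl δ r p) : Fb hl δ q u m r :=
  fun s hs hsr => h s hs (ht _ _ _ hsr hr)

theorem refl_trans (γ : J) : (∀ p q r : RC J X, LE hl γ p q → LE hl γ q r → LE hl γ p r) ∧
    (∀ p : RC J X, V hl γ p → LE hl γ p p) := by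
  induction γ using WellFoundedLT.induction with
  | ind γ ih =>
    constructor
    · intro p q r h h'
      rw [LE_iff] at h h' ⊢
      refine ⟨TLE_trans h.1 h'.1, fun δ hδ hj => ?_⟩
      obtain ⟨tr, rf⟩ := ih δ hj
      obtain ⟨a1, a2, a3, a4⟩ := h'.2 δ hδ hj
      obtain ⟨b1, b2, b3, b4⟩ := h.2 δ a1 hj
      have hpq : LE hl δ p q := LE_mono hj.le ((LE_iff hl).2 h)
      refine ⟨b1, a2.trans b2, fun n hn1 hn2 => ?_, fun u m s hu hs hsp hi => ?_⟩
      · rcases lt_or_ge n (q.stem δ).length with hq | hq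
        · have h1 := a3 n hn1 hq
          have h2 : (p.stem δ).take n = (q.stem δ).take n := by
            obtain ⟨t, ht⟩ := b2
            rw [← ht, List.take_append_of_le_length hq.le]
          have h3 : (p.stem δ).getD n 0 = (q.stem δ).getD n 0 := by
            obtain ⟨t, ht⟩ := b2
            rw [← ht, List.getD_append _ _ _ _ hq]
          rw [h2, h3]
          exact Fb_mono tr h1 hpq
        · have h1 := b3 n hq hn2
          intro s hs hsp
          obtain ⟨s', c1, c2, i, c3, c4⟩ := h1 s hs hsp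
          have h2 : q.stem δ <+: (p.stem δ).take n := by
            rw [List.prefix_take_iff]
            exact ⟨b2, hq⟩
          obtain ⟨s'', d1, d2, i', d3, d4⟩ := a4 ((p.stem δ).take n) ((p.stem δ).getD n 0) s' h2
            c1 (tr _ _ _ (tr _ _ _ c2 hsp) hpq) ⟨i, c3, c4⟩ s' c1 (rf _ c1)
          exact ⟨s'', d1, tr _ _ _ d2 c2, i', d3, d4⟩
      · have h1 := b4 u m s hu hs hsp hi
        intro t ht hts
        obtain ⟨s', c1, c2, i, c3, c4⟩ := h1 t ht hts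
        obtain ⟨s'', d1, d2, i', d3, d4⟩ := a4 u m s' (b2.trans hu) c1
          (tr _ _ _ (tr _ _ _ (tr _ _ _ c2 hts) hsp) hpq) ⟨i, c3, c4⟩ s' c1 (rf _ c1)
        exact ⟨s'', d1, tr _ _ _ d2 c2, i', d3, d4⟩
    · intro p hp
      rw [LE_iff]
      refine ⟨⟨le_rfl, fun x j hx hj => ⟨hx, fun _ _ => Iff.rfl, fun j' _ _ k hk hk' => ?_⟩⟩,
        fun ε hε hj => ?_⟩
      · exact absurd (hp.el hx hj hk) (not_lt.2 hk')
      · refine ⟨hε, List.prefix_rfl, fun n h1 h2 => absurd h2 (not_lt.2 h1), ?_⟩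
        rintro u m r hu hr hr' ⟨i, hi1, hi2⟩ r' hr1 hr2
        exact ⟨r', hr1, (ih ε hj).2 _ hr1, i, hi1, (ih ε hj).1 _ _ _ hr2 hi2⟩

theorem LE_trans {γ : J} {p q r : RC J X} (h : LE hl γ p q) (h' : LE hl γ q r) :
    LE hl γ p r := (refl_trans γ).1 _ _ _ h h'

theorem LE_refl {γ : J} {p : RC J X} (h : V hl γ p) : LE hl γ p p := (refl_trans γ).2 _ h

/-! ### forced bounds -/

theorem Fb.mono {δ : J} {q : RC J X} {u : List ℕ} {m m' : ℕ} {p r : RC J X}
    (h : Fb hl δ q u m p) (hr : LE hl δ r p) (hm : m ≤ m') : Fb hl δ q u m' r := by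
  intro s hs hsr
  obtain ⟨s', h1, h2, i, h3, h4⟩ := h s hs (LE_trans hsr hr)
  exact ⟨s', h1, h2, i, h3.trans hm, h4⟩

theorem Fb.of {δ : J} {q : RC J X} {u : List ℕ} {m : ℕ} {p : RC J X} {i : ℕ}
    (h1 : q.bd δ u i ≤ m) (h2 : LE hl δ p (q.nm δ u i)) : Fb hl δ q u m p :=
  fun s hs hsp => ⟨s, hs, LE_refl hs, i, h1, LE_trans hsp h2⟩

theorem Fb.dense {δ : J} {q : RC J X} {u : List ℕ} {m : ℕ} {p : RC J X}
    (h : ∀ r, V hl δ r → LE hl δ r p → ∃ r', V hl δ r' ∧ LE hl δ r' r ∧ Fb hl δ q u m r') :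
    Fb hl δ q u m p := by
  intro s hs hsp
  obtain ⟨s', h1, h2, h3⟩ := h s hs hsp
  obtain ⟨s'', h4, h5, h6⟩ := h3 s' h1 (LE_refl h1)
  exact ⟨s'', h4, LE_trans h5 h2, h6⟩

theorem HLE.fb {δ : J} {p q : RC J X} (h : HLE hl δ p q) {u : List ℕ} {m : ℕ} {r : RC J X}
    (hu : p.stem δ <+: u) (hrp : LE hl δ r p) (hf : Fb hl δ p u m r) : Fb hl δ q u m r := by
  refine Fb.dense fun s hs hsr => ?_
  obtain ⟨s', h1, h2, i, h3, h4⟩ := hf s hs hsr
  exact ⟨s', h1, h2, h.2.2.2 u m s' hu h1 (LE_trans h2 (LE_trans hsr hrp)) ⟨i, h3, h4⟩⟩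

theorem HLE.trans {δ : J} {p q r : RC J X} (hpq : LE hl δ p q) (h : HLE hl δ p q)
    (h' : HLE hl δ q r) : HLE hl δ p r := by
  obtain ⟨a1, a2, a3, a4⟩ := h'
  obtain ⟨b1, b2, b3, b4⟩ := h
  refine ⟨b1, a2.trans b2, fun n hn1 hn2 => ?_, fun u m s hu hs hsp hi => ?_⟩
  · rcases lt_or_ge n (q.stem δ).length with hq | hq
    · have h1 := a3 n hn1 hq
      have h2 : (p.stem δ).take n = (q.stem δ).take n := by
        obtain ⟨t, ht⟩ := b2
        rw [← ht, List.take_append_of_le_length hq.le]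
      have h3 : (p.stem δ).getD n 0 = (q.stem δ).getD n 0 := by
        obtain ⟨t, ht⟩ := b2
        rw [← ht, List.getD_append _ _ _ _ hq]
      rw [h2, h3]
      exact h1.mono hpq le_rfl
    · have h2 : q.stem δ <+: (p.stem δ).take n := by
        rw [List.prefix_take_iff]
        exact ⟨b2, hq⟩
      exact HLE.fb ⟨a1, a2, a3, a4⟩ h2 hpq (b3 n hq hn2)
  · exact HLE.fb ⟨a1, a2, a3, a4⟩ (b2.trans hu) (LE_trans hsp hpq) (b4 u m s hu hs hsp hi)

/-- same stem and same name -/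
theorem HLE.same {δ : J} {p q : RC J X} (hδ : δ ∈ p.dom) (h1 : p.stem δ = q.stem δ)
    (h2 : p.nm δ = q.nm δ) (h3 : p.bd δ = q.bd δ) : HLE hl δ p q := by
  refine ⟨hδ, by rw [h1], fun n a b => ?_, ?_⟩
  · rw [h1] at b
    exact absurd b (not_lt.2 a)
  · rintro u m r _ _ _ ⟨i, hi1, hi2⟩
    rw [h3] at hi1
    rw [h2] at hi2
    exact Fb.of hi1 hi2

theorem LE_of_parts {γ δ : J} {p q : RC J X} (h1 : LE hl δ p q) (h2 : TLE γ p q)
    (h3 : ∀ ε ∈ q.dom, δ ≤ ε → ε < γ → HLE hl ε p q) : LE hl γ p q := by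
  rw [LE_iff]
  refine ⟨h2, fun ε hε hj => ?_⟩
  rcases lt_or_ge ε δ with h | h
  · exact h1.hle hε h
  · exact h3 ε hε h hj

/-! ### agreement below a level -/

/-- the parts below `γ` are equal -/
structure Agr (γ : J) (p q : RC J X) : Prop where
  ht : p.ht = q.ht
  dom : ∀ δ < γ, δ ∈ p.dom ↔ δ ∈ q.dom
  stem : ∀ δ < γ, δ ∈ p.dom → p.stem δ = q.stem δ
  nm : ∀ δ < γ, δ ∈ p.dom → p.nm δ = q.nm δ
  bd : ∀ δ < γ, δ ∈ p.dom → p.bd δ = q.bd δ
  tw : ∀ x, ∀ j < γ, (x, j) ∈ p.tw ↔ (x, j) ∈ q.tw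
  el : ∀ x, ∀ j < γ, (x, j) ∈ p.tw → p.el x j = q.el x j

omit [WellFoundedLT J] in
theorem Agr.symm {γ : J} {p q : RC J X} (h : Agr γ p q) : Agr γ q p where
  ht := h.ht.symm
  dom := fun δ hδ => (h.dom δ hδ).symm
  stem := fun δ hδ h' => (h.stem δ hδ ((h.dom δ hδ).2 h')).symm
  nm := fun δ hδ h' => (h.nm δ hδ ((h.dom δ hδ).2 h')).symm
  bd := fun δ hδ h' => (h.bd δ hδ ((h.dom δ hδ).2 h')).symm
  tw := fun x j hj => (h.tw x j hj).symm
  el := fun x j hj h' => (h.el x j hj ((h.tw x j hj).2 h')).symm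

omit [WellFoundedLT J] in
theorem Agr.mono {γ γ' : J} (hg : γ' ≤ γ) {p q : RC J X} (h : Agr γ p q) : Agr γ' p q where
  ht := h.ht
  dom := fun δ hδ => h.dom δ (hδ.trans_le hg)
  stem := fun δ hδ => h.stem δ (hδ.trans_le hg)
  nm := fun δ hδ => h.nm δ (hδ.trans_le hg)
  bd := fun δ hδ => h.bd δ (hδ.trans_le hg)
  tw := fun x j hj => h.tw x j (hj.trans_le hg)
  el := fun x j hj => h.el x j (hj.trans_le hg)

omit [WellFoundedLT J] in
theorem Agr.rfl' (γ : J) (p : RC J X) : Agr γ p p :=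
  ⟨rfl, fun _ _ => Iff.rfl, fun _ _ _ => rfl, fun _ _ _ => rfl, fun _ _ _ => rfl,
    fun _ _ _ => Iff.rfl, fun _ _ _ _ => rfl⟩

theorem Agr.val_aux {γ : J} {p q : RC J X} (h : Agr γ p q) (hp : V hl γ p) : V hl γ q := by
  rw [V_iff] at hp ⊢
  refine ⟨fun x j hx hj => ?_, fun δ hδ hj => ?_⟩
  · have hx' := (h.tw x j hj).2 hx
    obtain ⟨h1, h2⟩ := hp.1 x j hx' hj
    rw [← h.el x j hj hx', ← h.ht]
    exact ⟨h1, h2⟩
  · have hδ' := (h.dom δ hj).2 hδ
    obtain ⟨h1, h2⟩ := hp.2 δ hδ' hj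
    refine ⟨h1, ?_⟩
    unfold Tot at h2 ⊢
    rw [← h.nm δ hj hδ']
    exact h2

theorem Agr.val {γ : J} {p q : RC J X} (h : Agr γ p q) : V hl γ p ↔ V hl γ q :=
  ⟨h.val_aux, h.symm.val_aux⟩

theorem Agr.le_right {γ : J} {p q : RC J X} (h : Agr γ p q) {r : RC J X} :
    LE hl γ r p ↔ LE hl γ r q := by
  have key : ∀ p q : RC J X, Agr γ p q → LE hl γ r p → LE hl γ r q := by
    intro p q h hp
    rw [LE_iff] at hp ⊢
    refine ⟨⟨h.ht ▸ hp.1.1, fun x j hx hj => ?_⟩, fun δ hδ hj => ?_⟩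
    · have hx1 := (h.tw x j hj).2 hx
      obtain ⟨h1, h2, h3⟩ := hp.1.2 x j hx1 hj
      refine ⟨h1, fun k hk => ?_, fun j' hj' hx' k hk hk' => ?_⟩
      · rw [← h.el x j hj hx1]; exact h2 k (h.ht ▸ hk)
      · exact h3 j' hj' ((h.tw x j' (hj'.trans hj)).2 hx') k hk (h.ht ▸ hk')
    · have hδ' := (h.dom δ hj).2 hδ
      have h1 := hp.2 δ hδ' hj
      unfold HLE Fb at h1 ⊢
      rw [← h.stem δ hj hδ', ← h.nm δ hj hδ', ← h.bd δ hj hδ']
      exact h1
  exact ⟨key p q h, key q p h.symm⟩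

theorem Agr.le_left {γ : J} {p q : RC J X} (h : Agr γ p q) {r : RC J X} :
    LE hl γ p r ↔ LE hl γ q r := by
  have key : ∀ p q : RC J X, Agr γ p q → LE hl γ p r → LE hl γ q r := by
    intro p q h hp
    rw [LE_iff] at hp ⊢
    refine ⟨⟨h.ht ▸ hp.1.1, fun x j hx hj => ?_⟩, fun δ hδ hj => ?_⟩
    · obtain ⟨h1, h2, h3⟩ := hp.1.2 x j hx hj
      refine ⟨(h.tw x j hj).1 h1, fun k hk => ?_, fun j' hj' hx' k hk hk' => ?_⟩
      · rw [← h.el x j hj h1]; exact h2 k hk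
      · rw [← h.el x j hj h1] at hk
        have h4 := (hp.1.2 x j' hx' (hj'.trans hj)).1
        rw [← h.el x j' (hj'.trans hj) h4]
        exact h3 j' hj' hx' k hk hk'
    · obtain ⟨h1, h2, h3, h4⟩ := hp.2 δ hδ hj
      have hs := h.stem δ hj h1
      refine ⟨(h.dom δ hj).1 h1, hs ▸ h2, fun n hn1 hn2 => ?_, fun u m s hu hv hsq hi => ?_⟩
      · rw [← hs] at hn2 ⊢
        intro s hv hsq
        exact h3 n hn1 hn2 s hv ((h.mono hj.le).le_right.2 hsq)
      · rw [← hs] at hu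
        rw [← h.nm δ hj h1, ← h.bd δ hj h1] at hi
        exact h4 u m s hu hv ((h.mono hj.le).le_right.2 hsq) hi
  exact ⟨key p q h, key q p h.symm⟩

/-- if the parts below `γ` of valid conditions are equal then `p ≤ q` -/
theorem Agr.le {γ : J} {p q : RC J X} (h : Agr γ p q) (hq : V hl γ q) : LE hl γ p q :=
  h.le_left.2 (LE_refl hq)

/-! ### constructions -/

section
open Classical

/-- the part of `p` below `γ` -/
noncomputable def cut (γ : J) (p : RC J X) : RC J X :=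
  .mk (p.dom.filter (· < γ)) p.stem p.nm p.bd (p.tw.filter (·.2 < γ)) p.ht p.el

/-- the part of `r` below `γ` and the part of `p` from `γ` on, with the height of `r` -/
noncomputable def glue (r p : RC J X) (γ : J) : RC J X :=
  .mk (r.dom.filter (· < γ) ∪ p.dom.filter (γ ≤ ·)) (fun δ => if δ < γ then r.stem δ else p.stem δ)
    (fun δ => if δ < γ then r.nm δ else p.nm δ) (fun δ => if δ < γ then r.bd δ else p.bd δ)
    (r.tw.filter (·.2 < γ) ∪ p.tw.filter (γ ≤ ·.2)) r.ht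
    (fun x j => if j < γ then r.el x j else p.el x j)

/-- the Hechler part at the level `δ` is replaced (or added) -/
noncomputable def setH (p : RC J X) (δ : J) (s : List ℕ) (ν : List ℕ → ℕ → RC J X)
    (β : List ℕ → ℕ → ℕ) : RC J X :=
  .mk (insert δ p.dom) (Function.update p.stem δ s) (Function.update p.nm δ ν)
    (Function.update p.bd δ β) p.tw p.ht p.el

/-- the tower part at the level `α` is replaced by the rows `R` and the sets `e` -/
noncomputable def setT (p : RC J X) (α : J) (R : Finset X) (e : X → Finset ℕ) : RC J X :=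
  .mk p.dom p.stem p.nm p.bd (p.tw.filter (·.2 ≠ α) ∪ R.image (fun x => (x, α))) p.ht
    (fun x j => if j = α then e x else p.el x j)

/-- the height is raised to `n` -/
def raise (p : RC J X) (n : ℕ) : RC J X := .mk p.dom p.stem p.nm p.bd p.tw (max p.ht n) p.el

/-- the tower part of `p` in the rows of `E` -/
noncomputable def pureT (E : Set X) (p : RC J X) : RC J X :=
  .mk ∅ p.stem p.nm p.bd (p.tw.filter (·.1 ∈ E)) p.ht p.el

end

/-! ### the weakest condition -/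

theorem V_one (γ : J) : V hl γ (RC.one : RC J X) := by
  rw [V_iff]
  exact ⟨fun x j hx => absurd hx (Finset.notMem_empty _), fun δ hδ => absurd hδ (Finset.notMem_empty _)⟩

theorem LE_one (γ : J) (p : RC J X) : LE hl γ p RC.one := by
  rw [LE_iff]
  exact ⟨⟨Nat.zero_le _, fun x j hx => absurd hx (Finset.notMem_empty _)⟩,
    fun δ hδ => absurd hδ (Finset.notMem_empty _)⟩

omit [LinearOrder J] [WellFoundedLT J] in
theorem HE_iff {E : Set X} {p : RC J X} : HE E p ↔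
    (∀ x j, (x, j) ∈ p.tw → x ∈ E) ∧ ∀ δ ∈ p.dom, ∀ u i, HE E (p.nm δ u i) := by
  cases p with
  | one =>
    exact ⟨fun _ => ⟨fun x j hx => absurd hx (Finset.notMem_empty _),
      fun δ hδ => absurd hδ (Finset.notMem_empty _)⟩, fun _ => trivial⟩
  | mk dom stem nm bd tw ht el =>
    exact ⟨fun h => ⟨fun x j hx => h.1 (x, j) hx, h.2⟩, fun h => ⟨fun t ht => h.1 t.1 t.2 ht, h.2⟩⟩

omit [LinearOrder J] [WellFoundedLT J] in
theorem HE_mono {E E' : Set X} (h : E ⊆ E') {p : RC J X} (hp : HE E p) : HE E' p := by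
  induction p with
  | one => trivial
  | mk dom stem nm bd tw ht el ih => exact ⟨fun t ht => h (hp.1 t ht), fun δ hδ u i => ih δ u i (hp.2 δ hδ u i)⟩

omit [LinearOrder J] [WellFoundedLT J] in
theorem HE_univ (p : RC J X) : HE Set.univ p := by
  induction p with
  | one => trivial
  | mk dom stem nm bd tw ht el ih => exact ⟨fun t _ => trivial, fun δ _ u i => ih δ u i⟩

omit [LinearOrder J] [WellFoundedLT J] in
/-- every condition uses only countably many rows -/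
theorem HE_ctb (p : RC J X) : ∃ E : Set X, E.Countable ∧ HE E p := by
  induction p with
  | one => exact ⟨∅, Set.countable_empty, trivial⟩
  | mk dom stem nm bd tw ht el ih =>
    choose E h1 h2 using ih
    refine ⟨(Prod.fst '' (tw : Set (X × J))) ∪ ⋃ δ ∈ dom, ⋃ u, ⋃ i, E δ u i, ?_, ?_, ?_⟩
    · refine ((tw.countable_toSet).image _).union ?_
      exact Set.Countable.biUnion (dom.countable_toSet) fun δ _ => Set.countable_iUnion fun u =>
        Set.countable_iUnion fun i => h1 δ u i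
    · intro t ht
      exact Or.inl ⟨t, ht, rfl⟩
    · intro δ hδ u i
      refine HE_mono ?_ (h2 δ u i)
      intro x hx
      refine Or.inr ?_
      simp only [Set.mem_iUnion]
      exact ⟨δ, hδ, u, i, hx⟩

/-! ### cutting and glueing -/

omit [WellFoundedLT J] in
theorem mem_cut_dom {γ δ : J} {p : RC J X} : δ ∈ (cut γ p).dom ↔ δ ∈ p.dom ∧ δ < γ := by
  simp [cut, RC.dom]

omit [WellFoundedLT J] in
theorem mem_cut_tw {γ j : J} {x : X} {p : RC J X} :
    (x, j) ∈ (cut γ p).tw ↔ (x, j) ∈ p.tw ∧ j < γ := by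
  simp [cut, RC.tw]

omit [WellFoundedLT J] in
@[simp] theorem cut_ht {γ : J} {p : RC J X} : (cut γ p).ht = p.ht := rfl

omit [WellFoundedLT J] in
theorem cut_agr (γ : J) (p : RC J X) : Agr γ (cut γ p) p where
  ht := rfl
  dom := fun δ hδ => by simp [mem_cut_dom, hδ]
  stem := fun _ _ _ => rfl
  nm := fun _ _ _ => rfl
  bd := fun _ _ _ => rfl
  tw := fun x j hj => by simp [mem_cut_tw, hj]
  el := fun _ _ _ _ => rfl

theorem V_cut {γ : J} {p : RC J X} (hp : V hl γ p) (γ' : J) : V hl γ' (cut γ p) := by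
  rw [V_iff] at hp ⊢
  refine ⟨fun x j hx _ => ?_, fun δ hδ _ => ?_⟩
  · obtain ⟨h1, h2⟩ := mem_cut_tw.1 hx
    exact hp.1 x j h1 h2
  · obtain ⟨h1, h2⟩ := mem_cut_dom.1 hδ
    exact hp.2 δ h1 h2

/-- `r` is below the cut of `p` iff it is below `p` up to the level `γ` -/
theorem le_cut_iff {γ γ' : J} (h : γ ≤ γ') {r p : RC J X} :
    LE hl γ' r (cut γ p) ↔ LE hl γ r p := by
  constructor
  · intro h1
    exact (cut_agr γ p).le_right.1 (LE_mono h h1)
  · intro h1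
    rw [LE_iff]
    refine ⟨⟨h1.ht, fun x j hx hj => ?_⟩, fun δ hδ _ => ?_⟩
    · obtain ⟨h2, h3⟩ := mem_cut_tw.1 hx
      exact ⟨h1.tw h2 h3, fun k hk => h1.el h2 h3 hk, fun j' hj' hx' k hk hk' =>
        h1.coh h2 h3 hj' (mem_cut_tw.1 hx').1 hk hk'⟩
    · obtain ⟨h2, h3⟩ := mem_cut_dom.1 hδ
      exact h1.hle h2 h3

omit [WellFoundedLT J] in
theorem HE_cut {E : Set X} {p : RC J X} (h : HE E p) (γ : J) : HE E (cut γ p) := by
  rw [HE_iff] at h ⊢
  exact ⟨fun x j hx => h.1 x j (mem_cut_tw.1 hx).1, fun δ hδ => h.2 δ (mem_cut_dom.1 hδ).1⟩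

omit [WellFoundedLT J] in
theorem mem_glue_dom {γ δ : J} {r p : RC J X} :
    δ ∈ (glue r p γ).dom ↔ (δ ∈ r.dom ∧ δ < γ) ∨ (δ ∈ p.dom ∧ γ ≤ δ) := by
  simp [glue, RC.dom]

omit [WellFoundedLT J] in
theorem mem_glue_tw {γ j : J} {x : X} {r p : RC J X} :
    (x, j) ∈ (glue r p γ).tw ↔ ((x, j) ∈ r.tw ∧ j < γ) ∨ ((x, j) ∈ p.tw ∧ γ ≤ j) := by
  simp [glue, RC.tw]

omit [WellFoundedLT J] in
@[simp] theorem glue_ht {γ : J} {r p : RC J X} : (glue r p γ).ht = r.ht := rfl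

omit [WellFoundedLT J] in
theorem glue_stem {γ δ : J} {r p : RC J X} :
    (glue r p γ).stem δ = if δ < γ then r.stem δ else p.stem δ := rfl

omit [WellFoundedLT J] in
theorem glue_nm {γ δ : J} {r p : RC J X} :
    (glue r p γ).nm δ = if δ < γ then r.nm δ else p.nm δ := rfl

omit [WellFoundedLT J] in
theorem glue_bd {γ δ : J} {r p : RC J X} :
    (glue r p γ).bd δ = if δ < γ then r.bd δ else p.bd δ := rfl

omit [WellFoundedLT J] in
theorem glue_el {γ j : J} {x : X} {r p : RC J X} :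
    (glue r p γ).el x j = if j < γ then r.el x j else p.el x j := rfl

omit [WellFoundedLT J] in
theorem glue_agr (r p : RC J X) (γ : J) : Agr γ (glue r p γ) r where
  ht := rfl
  dom := fun δ hδ => by simp [mem_glue_dom, hδ]
  stem := fun δ hδ _ => by simp [glue_stem, hδ]
  nm := fun δ hδ _ => by simp [glue_nm, hδ]
  bd := fun δ hδ _ => by simp [glue_bd, hδ]
  tw := fun x j hj => by simp [mem_glue_tw, hj]
  el := fun x j hj _ => by simp [glue_el, hj]

theorem V_glue {γ γ' : J} {r p : RC J X} (hr : V hl γ r) (hp : V hl γ' p) (h : p.ht ≤ r.ht) :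
    V hl γ' (glue r p γ) := by
  rw [V_iff] at hr hp ⊢
  refine ⟨fun x j hx hj => ?_, fun δ hδ hj => ?_⟩
  · rcases mem_glue_tw.1 hx with ⟨h1, h2⟩ | ⟨h1, h2⟩
    · have := hr.1 x j h1 h2
      rw [glue_el, if_pos h2]
      exact this
    · have := hp.1 x j h1 hj
      rw [glue_el, if_neg (not_lt.2 h2)]
      exact ⟨this.1, fun k hk => (this.2 k hk).trans_le h⟩
  · rcases mem_glue_dom.1 hδ with ⟨h1, h2⟩ | ⟨h1, h2⟩
    · have := hr.2 δ h1 h2
      unfold Tot at this ⊢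
      rw [glue_nm, if_pos h2]
      exact this
    · have := hp.2 δ h1 hj
      unfold Tot at this ⊢
      rw [glue_nm, if_neg (not_lt.2 h2)]
      exact this

theorem glue_le {γ γ' : J} {r p : RC J X} (hr : LE hl γ r p) (hp : V hl γ' p) :
    LE hl γ' (glue r p γ) p := by
  rcases lt_or_ge γ' γ with hg | hg
  · exact LE_mono hg.le ((glue_agr r p γ).le_left.2 hr)
  refine LE_of_parts ((glue_agr r p γ).le_left.2 hr) ⟨hr.ht, fun x j hx hj => ?_⟩
    fun ε hε h1 h2 => ?_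
  · rcases lt_or_ge j γ with h | h
    · refine ⟨mem_glue_tw.2 (Or.inl ⟨hr.tw hx h, h⟩), fun k hk => ?_, fun j' hj' hx' k hk hk' => ?_⟩
      · rw [glue_el, if_pos h]
        exact hr.el hx h hk
      · rw [glue_el, if_pos h] at hk
        rw [glue_el, if_pos (hj'.trans h)]
        exact hr.coh hx h hj' hx' hk hk'
    · refine ⟨mem_glue_tw.2 (Or.inr ⟨hx, h⟩), fun k hk => ?_, fun j' hj' hx' k hk hk' => ?_⟩
      · rw [glue_el, if_neg (not_lt.2 h)]
      · rw [glue_el, if_neg (not_lt.2 h)] at hk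
        exact absurd (hp.el hx hj hk) (not_lt.2 hk')
  · refine HLE.same (mem_glue_dom.2 (Or.inr ⟨hε, h1⟩)) ?_ ?_ ?_
    · rw [glue_stem, if_neg (not_lt.2 h1)]
    · rw [glue_nm, if_neg (not_lt.2 h1)]
    · rw [glue_bd, if_neg (not_lt.2 h1)]

omit [WellFoundedLT J] in
theorem HE_glue {E : Set X} {r p : RC J X} (hr : HE E r) (hp : HE E p) (γ : J) :
    HE E (glue r p γ) := by
  rw [HE_iff] at hr hp ⊢
  refine ⟨fun x j hx => ?_, fun δ hδ u i => ?_⟩
  · rcases mem_glue_tw.1 hx with ⟨h1, _⟩ | ⟨h1, _⟩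
    · exact hr.1 x j h1
    · exact hp.1 x j h1
  · rcases mem_glue_dom.1 hδ with ⟨h1, h2⟩ | ⟨h1, h2⟩
    · rw [glue_nm, if_pos h2]
      exact hr.2 δ h1 u i
    · rw [glue_nm, if_neg (not_lt.2 h2)]
      exact hp.2 δ h1 u i

/-! ### changing the Hechler part at a level -/

omit [WellFoundedLT J] in
theorem mem_setH_dom {δ ε : J} {p : RC J X} {s : List ℕ} {ν : List ℕ → ℕ → RC J X}
    {β : List ℕ → ℕ → ℕ} : ε ∈ (setH p δ s ν β).dom ↔ ε = δ ∨ ε ∈ p.dom := by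
  simp [setH, RC.dom]

omit [WellFoundedLT J] in
theorem setH_ne {δ ε : J} {p : RC J X} {s : List ℕ} {ν : List ℕ → ℕ → RC J X}
    {β : List ℕ → ℕ → ℕ} (h : ε ≠ δ) : (setH p δ s ν β).stem ε = p.stem ε ∧
      (setH p δ s ν β).nm ε = p.nm ε ∧ (setH p δ s ν β).bd ε = p.bd ε := by
  simp [setH, RC.stem, RC.nm, RC.bd, h]

omit [WellFoundedLT J] in
@[simp] theorem setH_stem {δ : J} {p : RC J X} {s : List ℕ} {ν : List ℕ → ℕ → RC J X}
    {β : List ℕ → ℕ → ℕ} : (setH p δ s ν β).stem δ = s := by simp [setH, RC.stem]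

omit [WellFoundedLT J] in
@[simp] theorem setH_nm {δ : J} {p : RC J X} {s : List ℕ} {ν : List ℕ → ℕ → RC J X}
    {β : List ℕ → ℕ → ℕ} : (setH p δ s ν β).nm δ = ν := by simp [setH, RC.nm]

omit [WellFoundedLT J] in
@[simp] theorem setH_bd {δ : J} {p : RC J X} {s : List ℕ} {ν : List ℕ → ℕ → RC J X}
    {β : List ℕ → ℕ → ℕ} : (setH p δ s ν β).bd δ = β := by simp [setH, RC.bd]

omit [WellFoundedLT J] in
@[simp] theorem setH_tw {δ : J} {p : RC J X} {s : List ℕ} {ν : List ℕ → ℕ → RC J X}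
    {β : List ℕ → ℕ → ℕ} : (setH p δ s ν β).tw = p.tw := rfl

omit [WellFoundedLT J] in
@[simp] theorem setH_ht {δ : J} {p : RC J X} {s : List ℕ} {ν : List ℕ → ℕ → RC J X}
    {β : List ℕ → ℕ → ℕ} : (setH p δ s ν β).ht = p.ht := rfl

omit [WellFoundedLT J] in
@[simp] theorem setH_el {δ : J} {p : RC J X} {s : List ℕ} {ν : List ℕ → ℕ → RC J X}
    {β : List ℕ → ℕ → ℕ} : (setH p δ s ν β).el = p.el := rfl

omit [WellFoundedLT J] in
theorem setH_agr (p : RC J X) (δ : J) (s : List ℕ) (ν : List ℕ → ℕ → RC J X)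
    (β : List ℕ → ℕ → ℕ) : Agr δ (setH p δ s ν β) p where
  ht := rfl
  dom := fun ε hε => by simp [mem_setH_dom, hε.ne]
  stem := fun ε hε _ => (setH_ne hε.ne).1
  nm := fun ε hε _ => (setH_ne hε.ne).2.1
  bd := fun ε hε _ => (setH_ne hε.ne).2.2
  tw := fun x j _ => Iff.rfl
  el := fun _ _ _ _ => rfl

theorem V_setH {γ δ : J} {p : RC J X} {s : List ℕ} {ν : List ℕ → ℕ → RC J X}
    {β : List ℕ → ℕ → ℕ} (hp : V hl γ p) (hδ : hl δ)
    (h : ∀ u, (∀ i, V hl δ (ν u i)) ∧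
      ∀ r, V hl δ r → ∃ r', V hl δ r' ∧ LE hl δ r' r ∧ ∃ i, LE hl δ r' (ν u i)) :
    V hl γ (setH p δ s ν β) := by
  rw [V_iff] at hp ⊢
  refine ⟨fun x j hx hj => hp.1 x j hx hj, fun ε hε hj => ?_⟩
  by_cases he : ε = δ
  · subst he
    refine ⟨hδ, ?_⟩
    unfold Tot
    rw [setH_nm]
    exact h
  · have := hp.2 ε ((mem_setH_dom.1 hε).resolve_left he) hj
    unfold Tot at this ⊢
    rw [(setH_ne he).2.1]
    exact this

theorem setH_le {γ δ : J} {p : RC J X} {s : List ℕ} {ν : List ℕ → ℕ → RC J X}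
    {β : List ℕ → ℕ → ℕ} (hp : V hl γ p) (h : δ ∈ p.dom → HLE hl δ (setH p δ s ν β) p) :
    LE hl γ (setH p δ s ν β) p := by
  rcases lt_or_ge γ δ with hg | hg
  · exact ((setH_agr p δ s ν β).mono hg.le).le hp
  refine LE_of_parts (δ := δ) ((setH_agr p δ s ν β).le (V_mono hg hp))
    ⟨le_rfl, fun x j hx hj => ⟨hx, fun _ _ => Iff.rfl, fun j' _ _ k hk hk' =>
      absurd (hp.el hx hj hk) (not_lt.2 hk')⟩⟩ fun ε hε h1 h2 => ?_
  by_cases he : ε = δ
  · subst he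
    exact h hε
  · obtain ⟨a, b, c⟩ := setH_ne (p := p) (s := s) (ν := ν) (β := β) he
    exact HLE.same (mem_setH_dom.2 (Or.inr hε)) a b c

omit [WellFoundedLT J] in
theorem HE_setH {E : Set X} {δ : J} {p : RC J X} {s : List ℕ} {ν : List ℕ → ℕ → RC J X}
    {β : List ℕ → ℕ → ℕ} (hp : HE E p) (h : ∀ u i, HE E (ν u i)) : HE E (setH p δ s ν β) := by
  rw [HE_iff] at hp ⊢
  refine ⟨fun x j hx => hp.1 x j hx, fun ε hε u i => ?_⟩
  by_cases he : ε = δ
  · subst he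
    rw [setH_nm]
    exact h u i
  · rw [(setH_ne he).2.1]
    exact hp.2 ε ((mem_setH_dom.1 hε).resolve_left he) u i

/-! ### changing the tower part at a level -/

omit [WellFoundedLT J] in
theorem mem_setT_tw {α j : J} {x : X} {p : RC J X} {R : Finset X} {e : X → Finset ℕ} :
    (x, j) ∈ (setT p α R e).tw ↔ ((x, j) ∈ p.tw ∧ j ≠ α) ∨ (x ∈ R ∧ j = α) := by
  simp only [setT, RC.tw, Finset.mem_union, Finset.mem_filter, Finset.mem_image, Prod.mk.injEq]
  constructor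
  · rintro (h | ⟨y, h1, h2, h3⟩)
    · exact Or.inl h
    · subst h2
      exact Or.inr ⟨h1, h3.symm⟩
  · rintro (h | ⟨h1, h2⟩)
    · exact Or.inl h
    · exact Or.inr ⟨x, h1, rfl, h2.symm⟩

omit [WellFoundedLT J] in
theorem setT_el {α j : J} {x : X} {p : RC J X} {R : Finset X} {e : X → Finset ℕ} :
    (setT p α R e).el x j = if j = α then e x else p.el x j := rfl

omit [WellFoundedLT J] in
@[simp] theorem setT_ht {α : J} {p : RC J X} {R : Finset X} {e : X → Finset ℕ} :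
    (setT p α R e).ht = p.ht := rfl

omit [WellFoundedLT J] in
@[simp] theorem setT_dom {α : J} {p : RC J X} {R : Finset X} {e : X → Finset ℕ} :
    (setT p α R e).dom = p.dom := rfl

omit [WellFoundedLT J] in
@[simp] theorem setT_stem {α : J} {p : RC J X} {R : Finset X} {e : X → Finset ℕ} :
    (setT p α R e).stem = p.stem := rfl

omit [WellFoundedLT J] in
@[simp] theorem setT_nm {α : J} {p : RC J X} {R : Finset X} {e : X → Finset ℕ} :
    (setT p α R e).nm = p.nm := rfl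

omit [WellFoundedLT J] in
@[simp] theorem setT_bd {α : J} {p : RC J X} {R : Finset X} {e : X → Finset ℕ} :
    (setT p α R e).bd = p.bd := rfl

omit [WellFoundedLT J] in
theorem setT_agr (p : RC J X) (α : J) (R : Finset X) (e : X → Finset ℕ) :
    Agr α (setT p α R e) p where
  ht := rfl
  dom := fun _ _ => Iff.rfl
  stem := fun _ _ _ => rfl
  nm := fun _ _ _ => rfl
  bd := fun _ _ _ => rfl
  tw := fun x j hj => by simp [mem_setT_tw, hj.ne]
  el := fun x j hj _ => by simp [setT_el, hj.ne]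

theorem V_setT {γ α : J} {p : RC J X} {R : Finset X} {e : X → Finset ℕ} (hp : V hl γ p)
    (hα : ¬ hl α) (h : ∀ x ∈ R, ∀ k ∈ e x, k < p.ht) : V hl γ (setT p α R e) := by
  rw [V_iff] at hp ⊢
  refine ⟨fun x j hx hj => ?_, fun δ hδ hj => hp.2 δ hδ hj⟩
  rcases mem_setT_tw.1 hx with ⟨h1, h2⟩ | ⟨h1, h2⟩
  · rw [setT_el, if_neg h2]
    exact hp.1 x j h1 hj
  · subst h2
    rw [setT_el, if_pos rfl]
    exact ⟨hα, h x h1⟩

omit [WellFoundedLT J] in
theorem HE_setT {E : Set X} {α : J} {p : RC J X} {R : Finset X} {e : X → Finset ℕ}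
    (hp : HE E p) (h : ∀ x ∈ R, x ∈ E) : HE E (setT p α R e) := by
  rw [HE_iff] at hp ⊢
  refine ⟨fun x j hx => ?_, fun δ hδ u i => hp.2 δ hδ u i⟩
  rcases mem_setT_tw.1 hx with ⟨h1, _⟩ | ⟨h1, _⟩
  · exact hp.1 x j h1
  · exact h x h1

/-! ### raising the height -/

omit [WellFoundedLT J] [LinearOrder J] in
@[simp] theorem raise_ht {p : RC J X} {n : ℕ} : (raise p n).ht = max p.ht n := rfl

omit [WellFoundedLT J] [LinearOrder J] in
@[simp] theorem raise_tw {p : RC J X} {n : ℕ} : (raise p n).tw = p.tw := rfl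

omit [WellFoundedLT J] [LinearOrder J] in
@[simp] theorem raise_el {p : RC J X} {n : ℕ} : (raise p n).el = p.el := rfl

omit [WellFoundedLT J] [LinearOrder J] in
@[simp] theorem raise_dom {p : RC J X} {n : ℕ} : (raise p n).dom = p.dom := rfl

omit [WellFoundedLT J] [LinearOrder J] in
@[simp] theorem raise_stem {p : RC J X} {n : ℕ} : (raise p n).stem = p.stem := rfl

omit [WellFoundedLT J] [LinearOrder J] in
@[simp] theorem raise_nm {p : RC J X} {n : ℕ} : (raise p n).nm = p.nm := rfl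

omit [WellFoundedLT J] [LinearOrder J] in
@[simp] theorem raise_bd {p : RC J X} {n : ℕ} : (raise p n).bd = p.bd := rfl

theorem V_raise {γ : J} {p : RC J X} (hp : V hl γ p) (n : ℕ) : V hl γ (raise p n) := by
  rw [V_iff] at hp ⊢
  exact ⟨fun x j hx hj => ⟨(hp.1 x j hx hj).1, fun k hk =>
    ((hp.1 x j hx hj).2 k hk).trans_le (le_max_left _ _)⟩, fun δ hδ hj => hp.2 δ hδ hj⟩

theorem raise_le {γ : J} {p : RC J X} (hp : V hl γ p) (n : ℕ) : LE hl γ (raise p n) p := by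
  rw [LE_iff]
  refine ⟨⟨le_max_left _ _, fun x j hx hj => ⟨hx, fun _ _ => Iff.rfl, fun j' _ _ k hk hk' =>
    absurd (hp.el hx hj hk) (not_lt.2 hk')⟩⟩, fun δ hδ hj => HLE.same hδ rfl rfl rfl⟩

omit [LinearOrder J] [WellFoundedLT J] in
theorem HE_raise {E : Set X} {p : RC J X} (hp : HE E p) (n : ℕ) : HE E (raise p n) := by
  rw [HE_iff] at hp ⊢
  exact hp

/-! ### the tower part in some rows -/

omit [WellFoundedLT J] [LinearOrder J] in
theorem mem_pureT_tw {E : Set X} {j : J} {x : X} {p : RC J X} :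
    (x, j) ∈ (pureT E p).tw ↔ (x, j) ∈ p.tw ∧ x ∈ E := by
  simp [pureT, RC.tw]

omit [WellFoundedLT J] [LinearOrder J] in
@[simp] theorem pureT_dom {E : Set X} {p : RC J X} : (pureT E p).dom = ∅ := rfl

omit [WellFoundedLT J] [LinearOrder J] in
@[simp] theorem pureT_ht {E : Set X} {p : RC J X} : (pureT E p).ht = p.ht := rfl

omit [WellFoundedLT J] [LinearOrder J] in
@[simp] theorem pureT_el {E : Set X} {p : RC J X} : (pureT E p).el = p.el := rfl

theorem V_pureT {γ : J} {p : RC J X} (hp : V hl γ p) (E : Set X) : V hl γ (pureT E p) := by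
  rw [V_iff] at hp ⊢
  exact ⟨fun x j hx hj => hp.1 x j (mem_pureT_tw.1 hx).1 hj,
    fun δ hδ => absurd hδ (Finset.notMem_empty _)⟩

omit [WellFoundedLT J] [LinearOrder J] in
theorem HE_pureT (E : Set X) (p : RC J X) : HE E (pureT E p) := by
  rw [HE_iff]
  exact ⟨fun x j hx => (mem_pureT_tw.1 hx).2, fun δ hδ => absurd hδ (Finset.notMem_empty _)⟩

theorem le_pureT {γ : J} {p : RC J X} (hp : V hl γ p) (E : Set X) : LE hl γ p (pureT E p) := by
  rw [LE_iff]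
  refine ⟨⟨le_rfl, fun x j hx hj => ⟨(mem_pureT_tw.1 hx).1, fun _ _ => Iff.rfl,
    fun j' _ _ k hk hk' => absurd (hp.el (mem_pureT_tw.1 hx).1 hj hk) (not_lt.2 hk')⟩⟩,
    fun δ hδ => absurd hδ (Finset.notMem_empty _)⟩

end Pool.Agent.FS
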