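import Mathlib

/-!
# MP_e2257e_gt : the iteration (definitions)

`J` is a well-ordered set of levels, `X` a set of rows.  At a Hechler level `δ` (`hl δ`) a dominating
real `h_δ : ℕ → ℕ` is added by Laver forcing with the Frechet filter over everything below `δ`; at
every other level `α` one infinite set `t^x_α ⊆ ℕ` is added for every row `x ∈ X`, almost contained in
all the `t^x_β`, `β < α`.

A raw condition `p` consists of
* a finite set `dom` of Hechler levels, with a stem and a name for each of them; the name at the level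
  `δ` is a family `nm δ u i` of conditions with bounds `bd δ u i`: if some `nm δ u i` is in the
  generic filter then the values of `h_δ` after the node `u` are `≥ bd δ u i` (for some such `i`);
* a finite set `tw` of tower coordinates ` (x, j)`, a height `ht` and the finite sets
  `el x j = t^x_j ∩ ht`.
-/

set_option autoImplicit false

namespace Pool.Agent.FS

/-- raw conditions (`one` is the weakest condition) -/
inductive RC (J X : Type) : Type
  | one : RC J X
  | mk (dom : Finset J) (stem : J → List ℕ) (nm : J → List ℕ → ℕ → RC J X)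
      (bd : J → List ℕ → ℕ → ℕ) (tw : Finset (X × J)) (ht : ℕ) (el : X → J → Finset ℕ) : RC J X

namespace RC

variable {J X : Type}

/-- the Hechler levels of the condition -/
def dom : RC J X → Finset J
  | one => ∅
  | mk d _ _ _ _ _ _ => d

/-- the stems -/
def stem : RC J X → J → List ℕ
  | one => fun _ => []
  | mk _ s _ _ _ _ _ => s

/-- the names -/
def nm : RC J X → J → List ℕ → ℕ → RC J X
  | one => fun _ _ _ => one
  | mk _ _ n _ _ _ _ => n

/-- the bounds -/
def bd : RC J X → J → List ℕ → ℕ → ℕ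
  | one => fun _ _ _ => 0
  | mk _ _ _ b _ _ _ => b

/-- the tower coordinates of the condition -/
def tw : RC J X → Finset (X × J)
  | one => ∅
  | mk _ _ _ _ t _ _ => t

/-- the height of the tower part -/
def ht : RC J X → ℕ
  | one => 0
  | mk _ _ _ _ _ h _ => h

/-- the tower part -/
def el : RC J X → X → J → Finset ℕ
  | one => fun _ _ => ∅
  | mk _ _ _ _ _ _ e => e

end RC

variable {J X : Type} [LinearOrder J] [WellFoundedLT J] (hl : J → Prop)

/-- a level of the recursion: the valid conditions and the order -/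
abbrev Lvl (J X : Type) : Type := (RC J X → Prop) × (RC J X → RC J X → Prop)

/-- `p` forces that the name of `q` at the level `δ` is `≤ m` at the node `u` -/
def Bd (L : Lvl J X) (q : RC J X) (δ : J) (u : List ℕ) (m : ℕ) (p : RC J X) : Prop :=
  ∀ r, L.1 r → L.2 r p → ∃ r', L.1 r' ∧ L.2 r' r ∧ ∃ i, q.bd δ u i ≤ m ∧ L.2 r' (q.nm δ u i)

/-- validity and order of (the parts below `γ` of) raw conditions, by recursion on `γ` -/
noncomputable def lv : J → Lvl J X :=
  WellFounded.fix (wellFounded_lt (α := J)) fun γ ih =>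
    (fun p => (∀ x j, (x, j) ∈ p.tw → j < γ → ¬ hl j ∧ ∀ k ∈ p.el x j, k < p.ht) ∧
      ∀ δ ∈ p.dom, ∀ h : δ < γ, hl δ ∧ ∀ u, (∀ i, (ih δ h).1 (p.nm δ u i)) ∧
        ∀ r, (ih δ h).1 r → ∃ r', (ih δ h).1 r' ∧ (ih δ h).2 r' r ∧ ∃ i, (ih δ h).2 r' (p.nm δ u i),
     fun p q => q.ht ≤ p.ht ∧
      (∀ x j, (x, j) ∈ q.tw → j < γ → (x, j) ∈ p.tw ∧ (∀ k < q.ht, k ∈ p.el x j ↔ k ∈ q.el x j) ∧
        ∀ j' < j, (x, j') ∈ q.tw → ∀ k ∈ p.el x j, q.ht ≤ k → k ∈ p.el x j') ∧
      ∀ δ ∈ q.dom, ∀ h : δ < γ, δ ∈ p.dom ∧ q.stem δ <+: p.stem δ ∧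
        (∀ n, (q.stem δ).length ≤ n → n < (p.stem δ).length →
          Bd (ih δ h) q δ ((p.stem δ).take n) ((p.stem δ).getD n 0) p) ∧
        ∀ u m r, p.stem δ <+: u → (ih δ h).1 r → (ih δ h).2 r p →
          (∃ i, p.bd δ u i ≤ m ∧ (ih δ h).2 r (p.nm δ u i)) → Bd (ih δ h) q δ u m r)

/-- the part of `p` below `γ` is a valid condition -/
def V (γ : J) (p : RC J X) : Prop := (lv hl γ).1 p

/-- the part of `p` below `γ` extends the part of `q` below `γ` -/
def LE (γ : J) (p q : RC J X) : Prop := (lv hl γ).2 p q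

/-- the part of `p` below `δ` forces that the name of `q` at the level `δ` is `≤ m` at `u` -/
def Fb (δ : J) (q : RC J X) (u : List ℕ) (m : ℕ) (p : RC J X) : Prop :=
  ∀ r, V hl δ r → LE hl δ r p →
    ∃ r', V hl δ r' ∧ LE hl δ r' r ∧ ∃ i, q.bd δ u i ≤ m ∧ LE hl δ r' (q.nm δ u i)

/-- the tower part of the order below `γ` -/
def TLE (γ : J) (p q : RC J X) : Prop :=
  q.ht ≤ p.ht ∧ ∀ x j, (x, j) ∈ q.tw → j < γ → (x, j) ∈ p.tw ∧
    (∀ k < q.ht, k ∈ p.el x j ↔ k ∈ q.el x j) ∧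
    ∀ j' < j, (x, j') ∈ q.tw → ∀ k ∈ p.el x j, q.ht ≤ k → k ∈ p.el x j'

/-- the order at the Hechler level `δ` -/
def HLE (δ : J) (p q : RC J X) : Prop :=
  δ ∈ p.dom ∧ q.stem δ <+: p.stem δ ∧
    (∀ n, (q.stem δ).length ≤ n → n < (p.stem δ).length →
      Fb hl δ q ((p.stem δ).take n) ((p.stem δ).getD n 0) p) ∧
    ∀ u m r, p.stem δ <+: u → V hl δ r → LE hl δ r p →
      (∃ i, p.bd δ u i ≤ m ∧ LE hl δ r (p.nm δ u i)) → Fb hl δ q u m r

/-- the name of `p` at the Hechler level `δ` is total -/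
def Tot (δ : J) (p : RC J X) : Prop :=
  ∀ u, (∀ i, V hl δ (p.nm δ u i)) ∧
    ∀ r, V hl δ r → ∃ r', V hl δ r' ∧ LE hl δ r' r ∧ ∃ i, LE hl δ r' (p.nm δ u i)

theorem V_iff {γ : J} {p : RC J X} : V hl γ p ↔
    (∀ x j, (x, j) ∈ p.tw → j < γ → ¬ hl j ∧ ∀ k ∈ p.el x j, k < p.ht) ∧
      ∀ δ ∈ p.dom, δ < γ → hl δ ∧ Tot hl δ p := by
  unfold V
  rw [lv, WellFounded.fix_eq]
  rfl

theorem LE_iff {γ : J} {p q : RC J X} : LE hl γ p q ↔
    TLE γ p q ∧ ∀ δ ∈ q.dom, δ < γ → HLE hl δ p q := by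
  unfold LE
  rw [lv, WellFounded.fix_eq]
  unfold TLE
  rw [and_assoc]
  rfl

/-- all the coordinates occurring hereditarily in the condition are in rows of `E` -/
def HE (E : Set X) : RC J X → Prop
  | .one => True
  | .mk dom _ nm _ tw _ _ => (∀ t ∈ tw, t.1 ∈ E) ∧ ∀ δ ∈ dom, ∀ u i, HE E (nm δ u i)

/-- valid conditions (below `γ`) with rows in `E` -/
def HV (E : Set X) (γ : J) : Set (RC J X) := {p | V hl γ p ∧ HE E p}

end Pool.Agent.FS
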