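import Pool.Agent.Lib.MP_e2257e_gt.A.Stmts

/-!
# MP_e2257e_gt : piece A1 (finite functions are ccc)
-/

set_option autoImplicit false

namespace Pool.Agent.FS

private theorem fn_aux (T I C : Type) [Countable C] (n : ℕ) : ∀ (A : Set T) (dom : T → Finset I)
    (val : T → I → C), (∀ a ∈ A, (dom a).card ≤ n) →
    (∀ a ∈ A, ∀ b ∈ A, a ≠ b → ∃ i ∈ dom a, i ∈ dom b ∧ val a i ≠ val b i) →
    A.Countable := by
  classical
  induction n with
  | zero =>
    intro A dom val hc h
    apply Set.Subsingleton.countable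
    intro a ha b hb
    by_contra hab
    obtain ⟨i, hi, _, _⟩ := h a ha b hb hab
    have h0 : dom a = ∅ := Finset.card_eq_zero.1 (Nat.le_zero.1 (hc a ha))
    rw [h0] at hi
    exact absurd hi (Finset.notMem_empty i)
  | succ n ih =>
    intro A dom val hc h
    have h1 : ∀ i, ({a | a ∈ A ∧ i ∈ dom a} : Set T).Countable := by
      intro i
      have h2 : ({a | a ∈ A ∧ i ∈ dom a} : Set T) ⊆
          ⋃ c : C, {a | (a ∈ A ∧ i ∈ dom a) ∧ val a i = c} := by
        intro a ha
        exact Set.mem_iUnion.2 ⟨val a i, ha, rfl⟩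
      apply Set.Countable.mono h2
      apply Set.countable_iUnion
      intro c
      apply ih _ (fun a => (dom a).erase i) val
      · rintro a ⟨⟨ha, hi⟩, _⟩
        have h3 := hc a ha
        rw [Finset.card_erase_of_mem hi]
        omega
      · rintro a ⟨⟨ha, hi⟩, hca⟩ b ⟨⟨hb, hib⟩, hcb⟩ hab
        obtain ⟨j, hj, hjb, hv⟩ := h a ha b hb hab
        have hji : j ≠ i := by
          rintro rfl
          exact hv (hca.trans hcb.symm)
        exact ⟨j, Finset.mem_erase.2 ⟨hji, hj⟩, Finset.mem_erase.2 ⟨hji, hjb⟩, hv⟩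
    rcases A.eq_empty_or_nonempty with rfl | ⟨a, ha⟩
    · exact Set.countable_empty
    · have h4 : A ⊆ {a} ∪ ⋃ i ∈ (dom a : Set I), {b | b ∈ A ∧ i ∈ dom b} := by
        intro b hb
        by_cases hab : b = a
        · exact Or.inl hab
        · right
          obtain ⟨i, hi, hib, _⟩ := h a ha b hb (fun h' => hab h'.symm)
          simp only [Set.mem_iUnion]
          exact ⟨i, Finset.mem_coe.2 hi, hb, hib⟩
      apply Set.Countable.mono h4
      apply (Set.countable_singleton a).union
      apply Set.Countable.biUnion (dom a).countable_toSet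
      intro i _
      exact h1 i

theorem fn_proof : S_fn := by
  intro T I C _ A dom val h
  have h1 : A ⊆ ⋃ n : ℕ, {a | a ∈ A ∧ (dom a).card ≤ n} := by
    intro a ha
    exact Set.mem_iUnion.2 ⟨(dom a).card, ha, le_rfl⟩
  apply Set.Countable.mono h1
  apply Set.countable_iUnion
  intro n
  apply fn_aux T I C n _ dom val
  · intro a ha
    exact ha.2
  · intro a ha b hb hab
    exact h a ha.1 b hb.1 hab

end Pool.Agent.FS
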