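import Pool.Agent.Lib.MP_e2257e_gt.A.Stmts

/-!
# MP_e2257e_gt : piece A11 (descending the rank over Ak)
-/

set_option autoImplicit false

namespace Pool.Agent.FS

theorem inner_proof (h1 : S_rel) (h2 : S_comb) (h3 : S_ext) : S_inner := by
  intro J X _ _ hl γ δ hδ hmax hh ih E D k u a hrk
  obtain ⟨i1, i2, i3⟩ := ih E
  have hok : OkT hl E (none : Option (X × J)) := by
    intro x α hx
    cases hx
  have hB := h1 J X hl δ E none i2 (i3 none hok)
  refine hrk (fun u => {a | ∀ p, V hl γ p → δ ∈ p.dom → p.stem δ = u → LE hl δ p a →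
    ∃ q, V hl γ q ∧ LE hl γ q p ∧ ∃ d ∈ HV hl E γ, d ∈ D k ∧ LE hl γ q d}) ?_ ?_
  · rintro u a ⟨ha, d, hd, ⟨d0, hd0, hd0', hdd0⟩, hdd, hds, had⟩ p hp hpd hps hpa
    obtain ⟨q', a1, a2, a3, _⟩ := h2 J X hl γ δ hδ hmax hh ih p d p hp hd.1 hpd hdd
      (hps.trans hds.symm) (V_mono hδ.le hp) (LE_refl (V_mono hδ.le hp)) (LE_trans hpa had)
    exact ⟨q', a1, a2, d0, hd0, hd0', LE_trans a3 hdd0⟩
  · intro u a ha hc p hp hpd hps hpa
    obtain ⟨q1, b1, b2, i, b3⟩ := (hp.tot hpd hδ u).2 p (V_mono hδ.le hp)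
    have hf : Fb hl δ p u (p.bd δ u i) q1 := Fb.of le_rfl b3
    obtain ⟨q2, c1, c2, k', hk', _, d, hd1, hd2, hd3⟩ := hB {a} (Set.finite_singleton a)
      (by
        rintro x hx
        rw [Set.mem_singleton_iff] at hx
        subst hx
        exact ha)
      (fun k' => {a | ∀ p, V hl γ p → δ ∈ p.dom → p.stem δ = u ++ [k'] → LE hl δ p a →
        ∃ q, V hl γ q ∧ LE hl γ q p ∧ ∃ d ∈ HV hl E γ, d ∈ D k ∧ LE hl γ q d})
      (fun r hr hra m => hc m r hr (hra a rfl)) q1 b1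
      (by
        rintro x hx
        rw [Set.mem_singleton_iff] at hx
        subst hx
        exact LE_trans b2 hpa) (p.bd δ u i)
    obtain ⟨q', e1, e2, e3, e4, e5⟩ := h3 J X hl γ δ hδ hmax hh p q2 hp hpd c1 (LE_trans c2 b2) k'
      (by
        rw [hps]
        exact hf.mono c2 hk')
    obtain ⟨q, f1, f2, f3⟩ := hd2 q' e1 e4 (by rw [e5, hps]) (e3.le_left.2 hd3)
    exact ⟨q, f1, LE_trans f2 e2, f3⟩

end Pool.Agent.FS
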