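import Pool.Agent.Lib.MP_e2257e_gt.A.Basic

/-!
# MP_e2257e_gt : the iteration (statements of the pieces of block A)

Every `S_...` is a proposition; a piece `X` consists of a theorem `X_proof : S_X` in its own file
`Pool/Agent/Lib/MP_e2257e_gt/A/X.lean`, which imports this file.
`E` is always a set of rows, `HV hl E γ` the set of the conditions which are valid below `γ` and use
only rows in `E` (hereditarily).  The results are proved by simultaneous induction on `γ`; the
induction hypothesis is `IH hl δ` for all `δ < γ`.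
-/

set_option autoImplicit false

namespace Pool.Agent.FS

variable {J X : Type} [LinearOrder J] [WellFoundedLT J] (hl : J → Prop)

/-- the small order is ccc -/
def Ccc (E : Set X) (γ : J) : Prop :=
  ∀ A : Set (RC J X), A ⊆ HV hl E γ →
    (∀ p ∈ A, ∀ q ∈ A, p ≠ q → ¬ ∃ r ∈ HV hl E γ, LE hl γ r p ∧ LE hl γ r q) → A.Countable

/-- reflection: a common extension of finitely many conditions with rows in `E` can be replaced by
one with rows in `E` -/
def Refl (E : Set X) (γ : J) : Prop :=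
  ∀ A : Set (RC J X), A.Finite → A ⊆ HV hl E γ → ∀ q, V hl γ q → (∀ a ∈ A, LE hl γ q a) →
    ∃ q' ∈ HV hl E γ, ∀ a ∈ A, LE hl γ q' a

/-- below the conditions of `B`, infinitely many of the `D k` are met in the small order -/
def EInf (E : Set X) (γ : J) (B : Set (RC J X)) (D : ℕ → Set (RC J X)) : Prop :=
  ∀ r ∈ HV hl E γ, (∀ b ∈ B, LE hl γ r b) → ∀ m, ∃ r' ∈ HV hl E γ, LE hl γ r' r ∧
    ∃ k, m ≤ k ∧ r' ∈ D k

/-- the target: nothing, or a tower coordinate outside of `E` -/
def OkT (E : Set X) (tgt : Option (X × J)) : Prop :=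
  ∀ x α, tgt = some (x, α) → x ∉ E ∧ ¬ hl α

/-- the condition `q` puts `k` into the target -/
def Got (γ : J) (tgt : Option (X × J)) (q : RC J X) (k : ℕ) : Prop :=
  ∀ x α, tgt = some (x, α) → α < γ → (x, α) ∈ q.tw ∧ k ∈ q.el x α

/-- the conclusion about a condition `p` -/
def Concl (E : Set X) (γ : J) (tgt : Option (X × J)) (D : ℕ → Set (RC J X)) (p : RC J X) : Prop :=
  ∀ m, ∃ q, V hl γ q ∧ LE hl γ q p ∧ ∃ k, m ≤ k ∧ Got γ tgt q k ∧
    ∃ d ∈ HV hl E γ, d ∈ D k ∧ LE hl γ q d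

/-- if the small order forces that `{k : D k ∩ G ≠ ∅}` is infinite then the big order forces that its
intersection with the target is infinite -/
def Hit (E : Set X) (γ : J) (tgt : Option (X × J)) : Prop :=
  ∀ D : ℕ → Set (RC J X), EInf hl E γ ∅ D → ∀ p, V hl γ p → Concl hl E γ tgt D p

/-- the same below finitely many conditions -/
def HitB (E : Set X) (γ : J) (tgt : Option (X × J)) : Prop :=
  ∀ B : Set (RC J X), B.Finite → B ⊆ HV hl E γ → ∀ D : ℕ → Set (RC J X), EInf hl E γ B D →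
    ∀ p, V hl γ p → (∀ b ∈ B, LE hl γ p b) → Concl hl E γ tgt D p

/-- the induction hypothesis -/
def IH (γ : J) : Prop :=
  ∀ E : Set X, Ccc hl E γ ∧ Refl hl E γ ∧ ∀ tgt : Option (X × J), OkT hl E tgt → Hit hl E γ tgt

/-! ### the rank at a Hechler level `δ` (the last level below `γ`) -/

/-- `Rk B s a`: `a` forces that the node `s` is ranked over `B` (`B u` is the set of the conditions
forcing that the rank of `u` is `0`; the rank of `s` is at most `ρ` if the rank of `s ++ [k]` is less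
than `ρ` for infinitely many `k`) -/
def Rk (E : Set X) (δ : J) (B : List ℕ → Set (RC J X)) (s : List ℕ) (a : RC J X) : Prop :=
  ∀ R : List ℕ → Set (RC J X), (∀ u, B u ⊆ R u) →
    (∀ u a, a ∈ HV hl E δ → (∀ m, ∀ r ∈ HV hl E δ, LE hl δ r a → ∃ r' ∈ HV hl E δ,
      LE hl δ r' r ∧ ∃ k, m ≤ k ∧ r' ∈ R (u ++ [k])) → a ∈ R u) → a ∈ R s

/-- `a` (below `δ`) together with the stem `u` and some name at `δ` is below an element of `D k` -/
def Ak (E : Set X) (γ δ : J) (D : ℕ → Set (RC J X)) (k : ℕ) (u : List ℕ) : Set (RC J X) :=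
  {a | a ∈ HV hl E δ ∧ ∃ d ∈ HV hl E γ, (∃ d0 ∈ HV hl E γ, d0 ∈ D k ∧ LE hl γ d d0) ∧
    δ ∈ d.dom ∧ d.stem δ = u ∧ LE hl δ a d}

/-- `a` forces that `u` is good: there are arbitrarily large `k` such that `Ak k u` holds or some
`u ++ [i]` with arbitrarily large `i` is ranked over `Ak k` -/
def Good (E : Set X) (γ δ : J) (D : ℕ → Set (RC J X)) (u : List ℕ) : Set (RC J X) :=
  {a | a ∈ HV hl E δ ∧ ∀ m, ∀ r ∈ HV hl E δ, LE hl δ r a → ∃ r' ∈ HV hl E δ, LE hl δ r' r ∧
    ∃ k, m ≤ k ∧ (r' ∈ Ak hl E γ δ D k u ∨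
      ∃ i, m ≤ i ∧ Rk hl E δ (Ak hl E γ δ D k) (u ++ [i]) r')}

/-! ### statements -/

/-- (A1) Finite functions `val a` with the finite domain `dom a` and with values in a
countable set: pairwise incompatible (= different at a common point of the domains) ones are
countably many.
Proof: if `A` is uncountable, some `n` is the size of the domain for uncountably many `a ∈ A`;
induction on `n`: if some `i` belongs to uncountably many of the domains, fix the value at `i`
(pigeonhole), remove `i` from the domains and use the induction hypothesis; otherwise, for any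
`a ∈ A`, all but countably many `b ∈ A` have domain disjoint from `dom a`: contradiction. -/
def S_fn : Prop := ∀ (T I C : Type) [Countable C] (A : Set T) (dom : T → Finset I)
  (val : T → I → C), (∀ a ∈ A, ∀ b ∈ A, a ≠ b → ∃ i ∈ dom a, i ∈ dom b ∧ val a i ≠ val b i) →
    A.Countable

/-- (A2) Names.
Proof: by Zorn take a maximal subset `A` of `{a | ∃ m, a ∈ O m}` whose different elements have no
common extension in `HV hl E δ`; `A` is countable by `Ccc`, nonempty (`RC.one ∈ HV hl E δ`), so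
`A = range ν`, and `ν i ∈ O (β i)` for some `β`.  By maximality every `r ∈ HV hl E δ` has an
extension in `HV hl E δ` below some element of `A`.  Now use `Hit hl E δ none` with
`D k = {d ∈ HV hl E δ | ∃ i, LE hl δ d (ν i)}` for all `k`. -/
def S_name : Prop := ∀ (J X : Type) [LinearOrder J] [WellFoundedLT J] (hl : J → Prop) (E : Set X)
  (δ : J), Ccc hl E δ → Hit hl E δ none → ∀ O : ℕ → Set (RC J X), (∀ m, O m ⊆ HV hl E δ) →
    (∀ r ∈ HV hl E δ, ∃ r' ∈ HV hl E δ, LE hl δ r' r ∧ ∃ m, r' ∈ O m) →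
    ∃ (ν : ℕ → RC J X) (β : ℕ → ℕ), (∀ i, ν i ∈ O (β i)) ∧
      ∀ r, V hl δ r → ∃ r', V hl δ r' ∧ LE hl δ r' r ∧ ∃ i, LE hl δ r' (ν i)

/-- (A3) The maximum of finitely many names.
Proof: for each `u` apply `S_name` to `O m = {a ∈ HV hl E δ | ∀ q ∈ Q, ∃ i', q.bd δ u i' ≤ m ∧
LE hl δ a (q.nm δ u i')}`.  Density: let `r ∈ HV hl E δ`; induction over the finite set `Q` gives an
extension `r1` of `r` with `V hl δ r1` and indices `i' q` such that `LE hl δ r1 (q.nm δ u (i' q))` for
all `q ∈ Q` (use `Tot hl δ q`); `Refl` for the finite set `{r} ∪ {q.nm δ u (i' q) | q ∈ Q}` gives an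
`r' ∈ HV hl E δ` below all of them; `m` = the maximum of the `q.bd δ u (i' q)`. -/
def S_max : Prop := ∀ (J X : Type) [LinearOrder J] [WellFoundedLT J] (hl : J → Prop) (E : Set X)
  (δ : J), Ccc hl E δ → Refl hl E δ → Hit hl E δ none → ∀ Q : Set (RC J X), Q.Finite →
    (∀ q ∈ Q, Tot hl δ q ∧ ∀ u i, HE E (q.nm δ u i)) →
    ∃ (ν : List ℕ → ℕ → RC J X) (β : List ℕ → ℕ → ℕ), (∀ u i, HE E (ν u i)) ∧
      (∀ u, (∀ i, V hl δ (ν u i)) ∧
        ∀ r, V hl δ r → ∃ r', V hl δ r' ∧ LE hl δ r' r ∧ ∃ i, LE hl δ r' (ν u i)) ∧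
      ∀ u i, ∀ q ∈ Q, ∃ i', q.bd δ u i' ≤ β u i ∧ LE hl δ (ν u i) (q.nm δ u i')

/-- (A4) ccc.
Proof: let `A ⊆ HV hl E γ` be a set of pairwise incompatible conditions.  Apply `S_fn` with
`I = Option (J ⊕ X × J)`, `C = ℕ ⊕ List ℕ ⊕ Finset ℕ` (or so), `val p none` = the height of `p`,
`val p δ` = the stem of `p` at `δ ∈ p.dom`, `δ < γ`, `val p (x, j)` = `p.el x j` for ` (x, j) ∈ p.tw`,
`j < γ`.  So it is enough to show: if `p, q ∈ HV hl E γ` have the same height, the same stems on the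
common `dom` below `γ` and the same `el` on the common `tw` below `γ`, then they have a common
extension `r ∈ HV hl E γ`.  `r`: `dom` and `tw` are the unions; height `p.ht`; the stem at `δ` is
`p.stem δ` if `δ ∈ p.dom`, else `q.stem δ`; `el x j = p.el x j` if ` (x, j) ∈ p.tw`, else `q.el x j`;
the name at `δ` is that of `p` if `δ ∉ q.dom`, that of `q` if `δ ∉ p.dom`, and if `δ` is in both
and `δ < γ` then the `ν, β` of `S_max` for `Q = {p, q}` at `δ` (for `δ ≥ γ` take that of `p`).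
`LE hl γ r p`: use `LE_iff`; `HLE hl δ r p` is `HLE.same` or (if `δ ∈ q.dom`) immediate from the last
clause of `S_max` and `Fb.of`, `LE_trans`. -/
def S_ccc : Prop := ∀ (J X : Type) [LinearOrder J] [WellFoundedLT J] (hl : J → Prop) (γ : J),
  (∀ δ < γ, IH (X := X) hl δ) → ∀ E : Set X, Ccc hl E γ

/-- (A5) Reflection.
Proof: well-founded induction is not needed.  Let `A`, `q` be given and `a0 = pureT E q`, so
`a0 ∈ HV hl E γ`, `LE hl γ q a0`.  If there is no `δ < γ` with `δ ∈ a.dom` for some `a ∈ A`, then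
`q' = a0` works (for ` (x, j) ∈ a.tw`, `x ∈ E` by `HE_iff`, and ` (x, j) ∈ q.tw`).  Otherwise let
`δ < γ` be the largest such level (finitely many); `hl δ`.  Let `s = q.stem δ`, `A1` = the set of
the `a ∈ A` with `δ ∈ a.dom`.  By `LE hl γ q a`, for `a ∈ A1` and ` (a.stem δ).length ≤ n < s.length`
we have `Fb hl δ a (s.take n) (s.getD n 0) q`.  These are finitely many facts, so there is `q1` with
`V hl δ q1`, `LE hl δ q1 q` and indices `i (a, n)` with `a.bd δ (s.take n) i ≤ s.getD n 0` and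
`LE hl δ q1 (a.nm δ (s.take n) i)`.  Apply `Refl` at `δ` (from `IH`) to
`A ∪ {a0} ∪ {a.nm δ (s.take n) (i (a, n))}` and `q1`: `q2 ∈ HV hl E δ`.  Let `ν, β` be given by `S_max`
for `A1` at `δ`.  Let `q3` be: below `δ` like `q2`; at the level `δ` stem `s` and name `ν, β`; tower
part from `δ` on like `a0` (rows in `E`); height `q2.ht`; i.e. `q3 = setH (glue q2 a0 δ) δ s ν β`.
Then `q3 ∈ HV hl E γ` and `LE hl γ q3 a` for all `a ∈ A`: below `δ` by `q2`; `HLE hl δ q3 a` for
`a ∈ A1` by the choice of `q1` and by `S_max`; coherence of the tower part for ` (x, j) ∈ a.tw`,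
`δ ≤ j < γ`, `j' < j`, ` (x, j') ∈ a.tw`, `k ∈ q3.el x j = q.el x j`, `a.ht ≤ k` (and `k < q.ht` by
validity of `q`): `k ∈ q.el x j'` by `LE hl γ q a`, so `k ∈ q3.el x j'`, since if `j' < δ` then `q2`
extends `a0` and ` (x, j') ∈ a0.tw`. -/
def S_refl : Prop := ∀ (J X : Type) [LinearOrder J] [WellFoundedLT J] (hl : J → Prop) (γ : J),
  (∀ δ < γ, IH (X := X) hl δ) → ∀ E : Set X, Refl hl E γ

/-- (A6) The relative version.
Proof: let `B` be finite and `EInf hl E γ B D`.  Put `D' k = {d ∈ HV hl E γ | (d ∈ D k)} ∪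
{d ∈ HV hl E γ | there is no r ∈ HV hl E γ with LE hl γ r d and LE hl γ r b for all b ∈ B}`.
`EInf hl E γ ∅ D'`: for `r ∈ HV hl E γ`, if `r` has an extension in `HV hl E γ` below all `b ∈ B`
use `EInf hl E γ B D` for it, otherwise `r` is in the second set.  `Hit` gives
`q ≤ p` and `d ∈ D' k` with `LE hl γ q d`; if `d` is in the second set, then `q` is below `d` and all
the `b ∈ B`, and `Refl` for the finite set `{d} ∪ B` gives a contradiction. -/
def S_rel : Prop := ∀ (J X : Type) [LinearOrder J] [WellFoundedLT J] (hl : J → Prop) (γ : J)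
  (E : Set X) (tgt : Option (X × J)), Refl hl E γ → Hit hl E γ tgt → HitB hl E γ tgt

/-- (A7) The limit step (and the bottom step).
Proof: if there is no level below `γ` then `LE hl γ q p` means `p.ht ≤ q.ht`, everything is valid,
`Got` is void: apply `EInf` to `raise RC.one p.ht` (an element `r` of `HV hl E γ` of height `≥ p.ht`)
and take `q = d = r'`.  Otherwise let `δ < γ` be larger than all `ε ∈ p.dom` with `ε < γ`, all `j < γ`
with ` (x, j) ∈ p.tw`, and the level of the target (if it is `< γ`).  Let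
`D' k = {r ∈ HV hl E δ | ∃ d ∈ HV hl E γ, d ∈ D k ∧ LE hl δ r d}`.  `EInf hl E δ ∅ D'`: for
`r ∈ HV hl E δ` use `EInf hl E γ ∅ D` for `cut δ r ∈ HV hl E γ`.  `Hit hl E δ tgt` (from `IH`) gives
`q ≤ p` (below `δ`), `k`, `d' ∈ D' k`, `LE hl δ q d'`, so `LE hl δ q d` with `d ∈ D k`.  Take
`q' = glue q d δ` (`V_glue`, `glue_le`); `LE hl γ q' p` since all levels of `p` below `γ` are below
`δ`; `Got` since the level of the target is below `δ`. -/
def S_lim : Prop := ∀ (J X : Type) [LinearOrder J] [WellFoundedLT J] (hl : J → Prop) (γ : J),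
  (∀ δ < γ, ∃ δ' < γ, δ < δ') → (∀ δ < γ, IH (X := X) hl δ) → ∀ (E : Set X)
    (tgt : Option (X × J)), OkT hl E tgt → Hit hl E γ tgt

/-- (A8) The successor step at a tower level.
Proof: let `p`, `m` be given, `D` with `EInf hl E γ ∅ D`.  Let `ap = pureT E p ∈ HV hl E γ`,
`LE hl γ p ap`.  If the target is ` (x0, α)` we may assume ` (x0, α) ∈ p.tw` (otherwise add it with the
empty set by `setT`; this is an extension of `p`), and `tgt'` = `some (x0, b)` where `b` is the largest
`j < α` with ` (x0, j) ∈ p.tw`, or `none` if there is no such `j`; otherwise `tgt' = tgt`.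
Let `D' k = {r ∈ HV hl E α | ∃ d ∈ HV hl E γ, d ∈ D k ∧ LE hl γ d ap ∧ LE hl α r d}`.
`EInf hl E α {ap} D'`: for `r ∈ HV hl E α` below `ap` (up to `α`) use `EInf hl E γ ∅ D` for
`glue r ap α`, which is `≤ ap` (`glue_le`).  By `HitB hl E α tgt'` (from `IH`, `S_rel`) with the
number `max m p.ht` there are `q` (valid below `α`, `LE hl α q p`), `k`, `d` with `LE hl α q d`,
`d ∈ D k`, `LE hl γ d ap`, and `Got hl α tgt' q k`.  Let `q1` be: below `α` like `q`; at the level `α`
the rows of `E` from `d` and the rows not in `E` from `p`; height `q.ht`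
(`q1 = setT (cut α q) α R e`).  Then `V hl γ q1`, `LE hl γ q1 d`, `LE hl γ q1 p` (for a row
`x ∈ E` of `p` at `α`, coherence follows from `LE hl γ d ap` and then `LE hl α q d`).
If the target is not at the level `α` we are done.  If it is ` (x0, α)`: raise the height of `q1` to
`max q.ht (k + 1)` and insert `k` into the set at ` (x0, α)`; `k ≥ p.ht`; the result is still `≤ d`
(`x0 ∉ E`) and `≤ p`: for `j' < α` with ` (x0, j') ∈ p.tw` we have `j' ≤ b`, and `k ∈ q.el x0 b` by
`Got`, so `k ∈ q.el x0 j'` by coherence (`LE hl α q p`, ` (x0, b) ∈ p.tw`, `p.ht ≤ k`). -/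
def S_tow : Prop := ∀ (J X : Type) [LinearOrder J] [WellFoundedLT J] (hl : J → Prop) (γ α : J),
  α < γ → (∀ j < γ, j ≤ α) → ¬ hl α → IH (X := X) hl α → ∀ (E : Set X)
    (tgt : Option (X × J)), OkT hl E tgt → Hit hl E γ tgt

/-- (A9) Every node is ranked over `Good`.
Proof: write `A k = Ak hl E γ δ D k`, `G = Good hl E γ δ D`, and `NR B u a` for
`∀ r ∈ HV hl E δ, LE hl δ r a → ¬ Rk hl E δ B u r`.
(1) `A k`, `G` are open (closed under extensions in `HV hl E δ`), and so is `Rk hl E δ B` for `B`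
open.  (2) If `NR B u a`, `B ∈ {A k, G}`, `a ∈ HV hl E δ`, then below every `r0 ≤ a` there are `r1 ≤ r0`
(in `HV hl E δ`) and `M` with `NR B (u ++ [i]) r1` for all `i ≥ M` (otherwise `r0` satisfies the closure
condition in the definition of `Rk`).
Assume the claim fails for `s, a`: `NR G s a`.  As `G s ⊆ Rk G s`, `a` has no extension in `G s`, hence
there are `a0 ≤ a` and `m0` such that for all `r ≤ a0` and `k ≥ m0`: `r ∉ A k s` and
`¬ Rk (A k) (s ++ [i]) r` for `i ≥ m0`; so also `NR (A k) s a0` for `k ≥ m0` (unfold `Rk` once).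
Let `Alive u r` mean `NR G u r ∧ ∀ k ≥ m0, NR (A k) u r`; this is open in `r`; `Alive s a0`.
(3) If `Alive u r` then there are `r' ≤ r` and `M` with `Alive (u ++ [i]) r'` for all `i ≥ M`: as above
there are `r1 ≤ r`, `m1` with `NR (A k) (u ++ [i]) r1` for all `k, i ≥ m1`; then use (2) for `G` and for
the finitely many `A k`, `m0 ≤ k < m1`.
Let `O u M = {r ∈ HV hl E δ | (∀ i ≥ M, Alive (u ++ [i]) r) ∨ ∀ r' ∈ HV hl E δ, r' ≤ r → ¬ Alive u r'}`.
By (3) `S_name` applies for every `u`: names `ν u`, `β u`.  The condition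
`c = setH (cut δ a0) δ s ν β` is in `HV hl E γ`, so there are `k ≥ m0` and `c' ∈ D k`, `c' ∈ HV hl E γ`,
`LE hl γ c' c`.  Let `t = c'.stem δ`; `s` is an initial segment of `t`.  By induction on
`n ∈ [s.length, t.length]` there is `r ∈ HV hl E δ` with `LE hl δ r c'` and `Alive (t.take n) r`:
by `HLE hl δ c' c` we have `Fb hl δ c (t.take n) (t.getD n 0) c'`, so there are `r1` valid,
`LE hl δ r1 r`, and `i` with `β (t.take n) i ≤ t.getD n 0`, `LE hl δ r1 (ν (t.take n) i)`; by `Refl`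
there is `r2 ∈ HV hl E δ` below `r` and `ν (t.take n) i`; as `Alive (t.take n) r2`, the second
alternative for `ν (t.take n) i ∈ O (t.take n) _` is impossible, so `Alive (t.take (n+1)) r2`.
At the end `Alive t r` and `r ∈ A k t` (with `d = d0 = c'`), which contradicts `NR (A k) t r`. -/
def S_key : Prop := ∀ (J X : Type) [LinearOrder J] [WellFoundedLT J] (hl : J → Prop) (γ δ : J),
  δ < γ → (∀ j < γ, j ≤ δ) → hl δ → IH (X := X) hl δ → ∀ (E : Set X) (D : ℕ → Set (RC J X)),
    EInf hl E γ ∅ D → ∀ s, ∀ a ∈ HV hl E δ,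
      ∃ a' ∈ HV hl E δ, LE hl δ a' a ∧ Rk hl E δ (Good hl E γ δ D) s a'

/-- (A10) Two conditions with the same stem at the last level `δ` (a Hechler level).
Proof: `q' = setH (cut δ q) δ (p.stem δ) ν β` with `ν, β` from `S_max` for `Q = {p, d}`, `E = univ`
(`HE_univ`).  `HLE hl δ q' p` from the last clause of `S_max`.  Tower coordinates of `p`, `d` below `γ`
are below `δ` because `hl δ`. -/
def S_comb : Prop := ∀ (J X : Type) [LinearOrder J] [WellFoundedLT J] (hl : J → Prop) (γ δ : J),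
  δ < γ → (∀ j < γ, j ≤ δ) → hl δ → IH (X := X) hl δ → ∀ p d q : RC J X, V hl γ p → V hl γ d →
    δ ∈ p.dom → δ ∈ d.dom → p.stem δ = d.stem δ → V hl δ q → LE hl δ q p → LE hl δ q d →
      ∃ q', V hl γ q' ∧ LE hl γ q' p ∧ LE hl γ q' d ∧ Agr δ q' q

/-- (A10b) Extending the stem by one number.
Proof: `q' = setH (glue q p δ) δ (p.stem δ ++ [k]) (p.nm δ) (p.bd δ)`. -/
def S_ext : Prop := ∀ (J X : Type) [LinearOrder J] [WellFoundedLT J] (hl : J → Prop) (γ δ : J),
  δ < γ → (∀ j < γ, j ≤ δ) → hl δ → ∀ p q : RC J X, V hl γ p → δ ∈ p.dom → V hl δ q →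
    LE hl δ q p → ∀ k, Fb hl δ p (p.stem δ) k q →
      ∃ q', V hl γ q' ∧ LE hl γ q' p ∧ Agr δ q' q ∧ δ ∈ q'.dom ∧ q'.stem δ = p.stem δ ++ [k]

/-- (A11) Descending the rank over `Ak k`.
Proof: apply the definition of `Rk` to `R u = {a ∈ HV hl E δ | ∀ p, V hl γ p → δ ∈ p.dom →
p.stem δ = u → LE hl δ p a → ∃ q, ...}`.  `Ak k u ⊆ R u` by `S_comb` (with `q = p`, i.e. `cut`).
Closure: let `p` be given with stem `u`, `LE hl δ p a`.  By `Tot hl δ p` there are `q1` (valid below
`δ`, `≤ p`) and `M` with `Fb hl δ p u M q1`.  `HitB hl E δ none` for `B = {a}` and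
`D' k' = {r | r ∈ R (u ++ [k'])}` gives `q2 ≤ q1`, `k' ≥ M`, `r' ∈ R (u ++ [k'])` with `LE hl δ q2 r'`.
Extend the stem by `k'` (`S_ext`) and use `r' ∈ R (u ++ [k'])`. -/
def S_inner : Prop := ∀ (J X : Type) [LinearOrder J] [WellFoundedLT J] (hl : J → Prop) (γ δ : J),
  δ < γ → (∀ j < γ, j ≤ δ) → hl δ → IH (X := X) hl δ → ∀ (E : Set X) (D : ℕ → Set (RC J X)) (k : ℕ)
    (u : List ℕ) (a : RC J X), Rk hl E δ (Ak hl E γ δ D k) u a → ∀ p, V hl γ p → δ ∈ p.dom →
      p.stem δ = u → LE hl δ p a → ∃ q, V hl γ q ∧ LE hl γ q p ∧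
        ∃ d ∈ HV hl E γ, d ∈ D k ∧ LE hl γ q d

/-- (A12) Descending the rank over `Good`.
Proof: apply the definition of `Rk` to `R u = {a ∈ HV hl E δ | ∀ p, V hl γ p → δ ∈ p.dom →
p.stem δ = u → LE hl δ p a → Concl hl E γ tgt D p}`.  Closure: exactly as in `S_inner`.
`Good u ⊆ R u`: given `p`, `m`; take `q1 ≤ p` and `M` with `Fb hl δ p u M q1` as in `S_inner`.
Apply `HitB hl E δ tgt` with `B = {a}` to
`D' k = {r ∈ HV hl E δ | r ∈ Ak k u ∨ ∃ i ≥ M, Rk (Ak k) (u ++ [i]) r}` (`EInf` by `Good`, with the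
number `max m' M`): `q2 ≤ q1`, `k ≥ m`, `Got hl δ tgt q2 k`, `r' ∈ D' k`, `LE hl δ q2 r'`.
If `r' ∈ Ak k u`: `S_comb` for `p`, `d` and `q2`.  If `Rk (Ak k) (u ++ [i]) r'`: `S_ext` (with `i ≥ M`)
and then `S_inner`.  `Got hl γ tgt` follows from `Got hl δ tgt`, as the level of the target is not a
Hechler level, and it is preserved by extensions. -/
def S_outer : Prop := ∀ (J X : Type) [LinearOrder J] [WellFoundedLT J] (hl : J → Prop) (γ δ : J),
  δ < γ → (∀ j < γ, j ≤ δ) → hl δ → IH (X := X) hl δ → ∀ (E : Set X) (tgt : Option (X × J)),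
    OkT hl E tgt → ∀ (D : ℕ → Set (RC J X)) (u : List ℕ) (a : RC J X),
      Rk hl E δ (Good hl E γ δ D) u a → ∀ p, V hl γ p → δ ∈ p.dom → p.stem δ = u →
        LE hl δ p a → Concl hl E γ tgt D p

/-- (A13) The successor step at a Hechler level.
Proof: let `p` be given; if `δ ∉ p.dom` replace `p` by `setH p δ [] (fun _ _ => .one) (fun _ _ => 0)`
(`V_setH`, `setH_le`).  Let `s = p.stem δ`.  By `S_key` and `Hit hl E δ none` (with
`D' k = {a ∈ HV hl E δ | Rk hl E δ (Good hl E γ δ D) s a}` for all `k`) there are `q` valid below `δ`,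
`LE hl δ q p`, and `a` with `LE hl δ q a`, `Rk ... s a`.  Apply `S_outer` to `glue q p δ`. -/
def S_hech : Prop := ∀ (J X : Type) [LinearOrder J] [WellFoundedLT J] (hl : J → Prop) (γ δ : J),
  δ < γ → (∀ j < γ, j ≤ δ) → hl δ → IH (X := X) hl δ → ∀ (E : Set X)
    (tgt : Option (X × J)), OkT hl E tgt → Hit hl E γ tgt

/-- the induction -/
theorem ih_all (h4 : S_ccc) (h5 : S_refl) (h7 : S_lim) (h8 : S_tow) (h13 : S_hech) {J X : Type}
    [LinearOrder J] [WellFoundedLT J] (hl : J → Prop) (γ : J) : IH (X := X) hl γ := by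
  induction γ using WellFoundedLT.induction with
  | ind γ ih =>
    intro E
    refine ⟨h4 J X hl γ ih E, h5 J X hl γ ih E, fun tgt ht => ?_⟩
    by_cases h : ∃ δ < γ, ∀ j < γ, j ≤ δ
    · obtain ⟨δ, hδ, hmax⟩ := h
      by_cases hh : hl δ
      · exact h13 J X hl γ δ hδ hmax hh (ih δ hδ) E tgt ht
      · exact h8 J X hl γ δ hδ hmax hh (ih δ hδ) E tgt ht
    · push Not at h
      exact h7 J X hl γ h ih E tgt ht

end Pool.Agent.FS
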